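import Pool.Agent.Y636.CL.Tree

/-!
Likelihood ratios along a protocol: large likelihood ratios of the single parties.
-/

set_option autoImplicit false

namespace Pool.Agent.Q126.BL

open Finset Pool.Agent.Y636.CL

variable {N : ℕ} {E H : Type} {w φ : E → ℝ} {B : ℝ}

theorem mass_mul_bt (hw : ∀ e, 0 ≤ w e) (A : Finset E) :
    ms w A * bt w φ A = ms (fun e => w e * φ e) A := by
  unfold bt
  rcases eq_or_ne (ms w A) 0 with h | h
  · have h1 : ∀ e ∈ A, w e = 0 := (sum_eq_zero_iff_of_nonneg fun e _ => hw e).1 h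
    have h2 : ms (fun e => w e * φ e) A = 0 := by
      unfold ms
      exact sum_eq_zero fun e he => by rw [h1 e he, zero_mul]
    rw [h, h2, zero_mul]
  · field_simp

theorem mass_tilt (hw : ∀ e, 0 ≤ w e) (A : Finset E) :
    ms (fun e => w e * (1 + φ e)) A = ms w A * (1 + bt w φ A) := by
  rw [ms_tilt, ← mass_mul_bt hw]
  ring

theorem neg_one_le_bt (hw : ∀ e, 0 ≤ w e) (hφ : ∀ e, -1 ≤ φ e) (A : Finset E) :
    -1 ≤ bt w φ A := by
  unfold bt
  rcases (ms_nonneg hw A).eq_or_lt with h | h
  · rw [← h, div_zero]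
    norm_num
  · rw [le_div_iff₀ h]
    unfold ms
    rw [mul_sum]
    exact sum_le_sum fun e _ => by nlinarith [hw e, hφ e]

theorem one_add_bt_le (hw : ∀ e, 0 ≤ w e) (hB : 1 ≤ B) (hφ : ∀ e, 1 + φ e ≤ B) (A : Finset E) :
    1 + bt w φ A ≤ B := by
  unfold bt
  rcases (ms_nonneg hw A).eq_or_lt with h | h
  · rw [← h, div_zero]
    linarith
  · have h1 : ms (fun e => w e * φ e) A / ms w A ≤ B - 1 := by
      rw [div_le_iff₀ h]
      unfold ms
      rw [mul_sum]
      exact sum_le_sum fun e _ => by nlinarith [hw e, hφ e]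
    linarith

theorem tilt_nonneg' (hw : ∀ e, 0 ≤ w e) (hφ : ∀ e, -1 ≤ φ e) (e : E) : 0 ≤ w e * (1 + φ e) :=
  mul_nonneg (hw e) (by linarith [hφ e])

theorem one_add_bt_exp (A : Finset E) : 1 + bt w φ A ≤ Real.exp (bt w φ A) := by
  have := Real.add_one_le_exp (bt w φ A)
  linarith

theorem pm_tilt_exp (hw : ∀ e, 0 ≤ w e) (hφ : ∀ e, -1 ≤ φ e) (S : Fin N → Finset E) :
    pm (fun e => w e * (1 + φ e)) S ≤ pm w S * Real.exp (zz w φ S) := by
  unfold pm zz
  rw [Real.exp_sum, ← prod_mul_distrib]
  refine prod_le_prod (fun i _ => ms_nonneg (tilt_nonneg' hw hφ) _) fun i _ => ?_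
  rw [mass_tilt hw]
  exact mul_le_mul_of_nonneg_left (one_add_bt_exp _) (ms_nonneg hw _)

/-- The likelihood ratio after a message. -/
theorem pm_tilt_update (hw : ∀ e, 0 ≤ w e) (hφ : ∀ e, -1 ≤ φ e)
    (S : Fin N → Finset E) (i : Fin N) (A : Finset E) (hz : zz w φ S ≤ 1) :
    pm (fun e => w e * (1 + φ e)) (Function.update S i A)
      ≤ Real.exp 2 * (pm w (Function.update S i A) * (1 + bt w φ A)) := by
  rw [pm_update, pm_update, mass_tilt hw]
  have h1 : rs (fun e => w e * (1 + φ e)) S i ≤ rs w S i * Real.exp 2 := by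
    have h2 : rs (fun e => w e * (1 + φ e)) S i
        ≤ rs w S i * Real.exp (∑ j ∈ univ.erase i, bt w φ (S j)) := by
      unfold rs
      rw [Real.exp_sum, ← prod_mul_distrib]
      refine prod_le_prod (fun i _ => ms_nonneg (tilt_nonneg' hw hφ) _) fun j _ => ?_
      rw [mass_tilt hw]
      exact mul_le_mul_of_nonneg_left (one_add_bt_exp _) (ms_nonneg hw _)
    refine h2.trans (mul_le_mul_of_nonneg_left (Real.exp_le_exp.2 ?_) (rs_nonneg hw S i))
    have h3 : zz w φ S = bt w φ (S i) + ∑ j ∈ univ.erase i, bt w φ (S j) :=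
      (add_sum_erase univ _ (mem_univ i)).symm
    have h4 := neg_one_le_bt hw hφ (S i)
    linarith
  have h3 := neg_one_le_bt hw hφ A
  have h4 := ms_nonneg hw A
  calc ms w A * (1 + bt w φ A) * rs (fun e => w e * (1 + φ e)) S i
      ≤ ms w A * (1 + bt w φ A) * (rs w S i * Real.exp 2) :=
        mul_le_mul_of_nonneg_left h1 (mul_nonneg h4 (by linarith))
    _ = _ := by ring

/-- The second moment of the sum of the biases. -/
theorem zz_sq_split' (hw : ∀ e, 0 ≤ w e) (S : Fin N → Finset E) (i : Fin N) (q : E → Bool) :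
    pm w (splt S i q false) * zz w φ (splt S i q false) ^ 2
      + pm w (splt S i q true) * zz w φ (splt S i q true) ^ 2
      = pm w S * zz w φ S ^ 2
        + (pm w (splt S i q false) * bt w φ (splt S i q false i) ^ 2
          + pm w (splt S i q true) * bt w φ (splt S i q true i) ^ 2
          - pm w S * bt w φ (S i) ^ 2) := by
  unfold splt
  rw [zz_update, zz_update, pm_update, pm_update, pm_eq w S i, Function.update_self,
    Function.update_self]
  have h1 := ms_split w (S i) q
  have h2 := ms_split (fun e => w e * φ e) (S i) q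
  rw [← mass_mul_bt hw, ← mass_mul_bt hw, ← mass_mul_bt hw] at h2
  generalize ms w ((S i).filter fun e => q e = false) = m0 at *
  generalize ms w ((S i).filter fun e => q e = true) = m1 at *
  generalize bt w φ ((S i).filter fun e => q e = false) = b0 at *
  generalize bt w φ ((S i).filter fun e => q e = true) = b1 at *
  generalize ms w (S i) = m at *
  generalize bt w φ (S i) = b at *
  generalize rs w S i = R at *
  generalize zz w φ S = Z at *
  have h3 : m0 * b0 + m1 * b1 = m * b := h2
  subst h1
  linear_combination (2 * R * (Z - b)) * h3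

/-- The second moment of the sum of the biases equals the sum of the second moments. -/
theorem leaf_zz' (hw : ∀ e, 0 ≤ w e) (T : Prot N E H) (S : Fin N → Finset E) :
    leaf (fun _ S => pm w S * zz w φ S ^ 2) T S
      = pm w S * zz w φ S ^ 2 + ∑ j, (leaf (fun _ S => pm w S * bt w φ (S j) ^ 2) T S
          - pm w S * bt w φ (S j) ^ 2) := by
  induction T generalizing S with
  | out a =>
    show pm w S * zz w φ S ^ 2 = _
    simp [leaf]
  | say i q l r hl hr =>
    show leaf _ l _ + leaf _ r _ = _
    rw [hl, hr]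
    have h1 := zz_sq_split' (φ := φ) hw S i q
    have h2 : ∑ j, (leaf (fun _ S => pm w S * bt w φ (S j) ^ 2) (Prot.say i q l r) S
          - pm w S * bt w φ (S j) ^ 2)
        = ∑ j, (leaf (fun _ S => pm w S * bt w φ (S j) ^ 2) l (splt S i q false)
          - pm w (splt S i q false) * bt w φ (splt S i q false j) ^ 2)
        + ∑ j, (leaf (fun _ S => pm w S * bt w φ (S j) ^ 2) r (splt S i q true)
          - pm w (splt S i q true) * bt w φ (splt S i q true j) ^ 2)
        + (pm w (splt S i q false) * bt w φ (splt S i q false i) ^ 2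
          + pm w (splt S i q true) * bt w φ (splt S i q true i) ^ 2
          - pm w S * bt w φ (S i) ^ 2) := by
      rw [← sum_add_distrib, ← add_sum_erase univ _ (mem_univ i),
        ← add_sum_erase univ (fun j => _ + _) (mem_univ i)]
      have h3 : ∑ j ∈ univ.erase i, (leaf (fun _ S => pm w S * bt w φ (S j) ^ 2)
            (Prot.say i q l r) S - pm w S * bt w φ (S j) ^ 2)
          = ∑ j ∈ univ.erase i, ((leaf (fun _ S => pm w S * bt w φ (S j) ^ 2) l
            (splt S i q false) - pm w (splt S i q false) * bt w φ (splt S i q false j) ^ 2)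
          + (leaf (fun _ S => pm w S * bt w φ (S j) ^ 2) r (splt S i q true)
          - pm w (splt S i q true) * bt w φ (splt S i q true j) ^ 2)) := by
        refine sum_congr rfl fun j hj => ?_
        rw [← bt_sq_split_ne S i j (ne_of_mem_erase hj) q]
        simp only [leaf]
        ring
      rw [h3]
      simp only [leaf]
      ring
    rw [h2]
    linarith

theorem sq_split_le' (hw : ∀ e, 0 ≤ w e) (S : Fin N → Finset E) (i : Fin N) (q : E → Bool) :
    pm w S * bt w φ (S i) ^ 2 ≤ pm w (splt S i q false) * bt w φ (splt S i q false i) ^ 2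
          + pm w (splt S i q true) * bt w φ (splt S i q true i) ^ 2 := by
  unfold splt
  rw [pm_update, pm_update, pm_eq w S i, Function.update_self, Function.update_self]
  have h1 := ms_split w (S i) q
  have h2 := ms_split (fun e => w e * φ e) (S i) q
  rw [← mass_mul_bt hw, ← mass_mul_bt hw, ← mass_mul_bt hw] at h2
  have hR := rs_nonneg hw S i
  have hm0 := ms_nonneg hw ((S i).filter fun e => q e = false)
  have hm1 := ms_nonneg hw ((S i).filter fun e => q e = true)
  generalize ms w ((S i).filter fun e => q e = false) = m0 at *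
  generalize ms w ((S i).filter fun e => q e = true) = m1 at *
  generalize bt w φ ((S i).filter fun e => q e = false) = b0 at *
  generalize bt w φ ((S i).filter fun e => q e = true) = b1 at *
  generalize ms w (S i) = m at *
  generalize bt w φ (S i) = b at *
  generalize rs w S i = R at *
  have h3 : m0 * b0 + m1 * b1 = m * b := h2
  subst h1
  have h4 : (m0 + m1) * b ^ 2 ≤ m0 * b0 ^ 2 + m1 * b1 ^ 2 := by
    have e1 : m0 * (b0 - b) ^ 2 + m1 * (b1 - b) ^ 2
        = m0 * b0 ^ 2 + m1 * b1 ^ 2 - (m0 + m1) * b ^ 2 := by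
      linear_combination (-2 * b) * h3
    have e2 : 0 ≤ m0 * (b0 - b) ^ 2 + m1 * (b1 - b) ^ 2 := by positivity
    linarith
  calc (m0 + m1) * R * b ^ 2 = R * ((m0 + m1) * b ^ 2) := by ring
    _ ≤ R * (m0 * b0 ^ 2 + m1 * b1 ^ 2) := mul_le_mul_of_nonneg_left h4 hR
    _ = _ := by ring

/-- The second moment grows along the protocol. -/
theorem zz_sq_le_leaf' (hw : ∀ e, 0 ≤ w e) (T : Prot N E H) (S : Fin N → Finset E) :
    pm w S * zz w φ S ^ 2 ≤ leaf (fun _ S => pm w S * zz w φ S ^ 2) T S := by
  induction T generalizing S with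
  | out a => exact le_refl _
  | say i q l r hl hr =>
    refine le_trans ?_ (add_le_add (hl _) (hr _))
    rw [zz_sq_split' hw S i q]
    linarith [sq_split_le' (φ := φ) hw S i q]

/-- The squares of the biases. -/
noncomputable def vv (w φ : E → ℝ) (S : Fin N → Finset E) : ℝ :=
  2 * zz w φ S ^ 2 + ∑ j, bt w φ (S j) ^ 2

theorem vv_nonneg (S : Fin N → Finset E) : 0 ≤ vv w φ S := by
  unfold vv
  have : 0 ≤ ∑ j, bt w φ (S j) ^ 2 := sum_nonneg fun j _ => sq_nonneg _
  positivity

theorem vv_split (hw : ∀ e, 0 ≤ w e) (S : Fin N → Finset E) (i : Fin N) (q : E → Bool) :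
    pm w S * vv w φ S ≤ pm w (splt S i q false) * vv w φ (splt S i q false)
      + pm w (splt S i q true) * vv w φ (splt S i q true) := by
  have h1 := zz_sq_split' (φ := φ) hw S i q
  have h2 := sq_split_le' (φ := φ) hw S i q
  have h3 : pm w S * ∑ j, bt w φ (S j) ^ 2
      ≤ pm w (splt S i q false) * ∑ j, bt w φ (splt S i q false j) ^ 2
        + pm w (splt S i q true) * ∑ j, bt w φ (splt S i q true j) ^ 2 := by
    rw [mul_sum, mul_sum, mul_sum, ← sum_add_distrib]
    refine sum_le_sum fun j _ => ?_
    by_cases hj : j = i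
    · rw [hj]; exact h2
    · exact (bt_sq_split_ne S i j hj q).ge
  unfold vv
  have e : ∀ S : Fin N → Finset E, pm w S * (2 * zz w φ S ^ 2 + ∑ j, bt w φ (S j) ^ 2)
      = 2 * (pm w S * zz w φ S ^ 2) + pm w S * ∑ j, bt w φ (S j) ^ 2 := fun S => by ring
  rw [e, e, e]
  linarith

/-- The squares of the biases grow along the protocol. -/
theorem vv_le_leaf (hw : ∀ e, 0 ≤ w e) (T : Prot N E H) (S : Fin N → Finset E) :
    pm w S * vv w φ S ≤ leaf (fun _ S => pm w S * vv w φ S) T S := by
  induction T generalizing S with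
  | out a => exact le_refl _
  | say i q l r hl hr => exact (vv_split hw S i q).trans (add_le_add (hl _) (hr _))

theorem leaf_vv (hw : ∀ e, 0 ≤ w e) (T : Prot N E H) (S : Fin N → Finset E)
    (hS : ∀ j, bt w φ (S j) = 0) :
    leaf (fun _ S => pm w S * vv w φ S) T S
      = 3 * ∑ j, leaf (fun _ S => pm w S * bt w φ (S j) ^ 2) T S := by
  have h1 := leaf_zz' (φ := φ) hw T S
  have hz : zz w φ S = 0 := by
    unfold zz
    exact sum_eq_zero fun j _ => hS j
  rw [hz] at h1
  simp only [hS] at h1
  have h2 : leaf (fun _ S => pm w S * vv w φ S) T S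
      = 2 * leaf (fun _ S => pm w S * zz w φ S ^ 2) T S
        + ∑ j, leaf (fun _ S => pm w S * bt w φ (S j) ^ 2) T S := by
    rw [← leaf_sum, ← leaf_mul]
    have h3 : ∀ (a : H) (S : Fin N → Finset E), pm w S * vv w φ S
        = 2 * (pm w S * zz w φ S ^ 2) + ∑ j, pm w S * bt w φ (S j) ^ 2 := by
      intro a S
      unfold vv
      rw [← mul_sum]
      ring
    rw [leaf_congr h3]
    clear h1 h3 hz hS
    induction T generalizing S with
    | out a => rfl
    | say i q l r hl hr =>
      simp only [leaf]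
      rw [hl, hr]
      ring
  rw [h2, h1]
  simp
  ring

/-- The change of measure for parties with large likelihood ratios. -/
theorem tilt_le' (hw : ∀ e, 0 ≤ w e) (hφ : ∀ e, -1 ≤ φ e)
    (good : H → ℝ) (hg0 : ∀ h, 0 ≤ good h) (hg1 : ∀ h, good h ≤ 1)
    (T : Prot N E H) (S : Fin N → Finset E)
    (hS : 1 < zz w φ S → pm (fun e => w e * (1 + φ e)) S ≤ Real.exp 2 * (pm w S * vv w φ S)) :
    leaf (fun h S => good h * pm (fun e => w e * (1 + φ e)) S) T S
      ≤ Real.exp 1 * leaf (fun h S => good h * pm w S) T S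
        + Real.exp 2 * leaf (fun _ S => pm w S * vv w φ S) T S := by
  induction T generalizing S with
  | out a =>
    show good a * pm (fun e => w e * (1 + φ e)) S
      ≤ Real.exp 1 * (good a * pm w S) + Real.exp 2 * (pm w S * vv w φ S)
    have hp := pm_nonneg hw S
    have hv := vv_nonneg (w := w) (φ := φ) S
    rcases le_or_gt (zz w φ S) 1 with h | h
    · have h1 := pm_tilt_exp hw hφ S
      have h2 : Real.exp (zz w φ S) ≤ Real.exp 1 := Real.exp_le_exp.2 h
      have h3 : pm (fun e => w e * (1 + φ e)) S ≤ pm w S * Real.exp 1 :=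
        h1.trans (mul_le_mul_of_nonneg_left h2 hp)
      have h4 : 0 ≤ Real.exp 2 * (pm w S * vv w φ S) := by positivity
      have h5 := mul_le_mul_of_nonneg_left h3 (hg0 a)
      linarith
    · have h4 : 0 ≤ Real.exp 1 * (good a * pm w S) :=
        mul_nonneg (Real.exp_pos 1).le (mul_nonneg (hg0 a) hp)
      have h5 : good a * pm (fun e => w e * (1 + φ e)) S
          ≤ 1 * (Real.exp 2 * (pm w S * vv w φ S)) :=
        mul_le_mul (hg1 a) (hS h) (pm_nonneg (tilt_nonneg' hw hφ) S) (by norm_num)
      linarith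
  | say i q l r hl hr =>
    rcases le_or_gt (zz w φ S) 1 with h | h
    · have hch : ∀ c : Bool, 1 < zz w φ (splt S i q c) →
          pm (fun e => w e * (1 + φ e)) (splt S i q c)
            ≤ Real.exp 2 * (pm w (splt S i q c) * vv w φ (splt S i q c)) := by
        intro c hc
        refine (pm_tilt_update hw hφ S i _ h).trans ?_
        refine mul_le_mul_of_nonneg_left ?_ (Real.exp_pos 2).le
        refine mul_le_mul_of_nonneg_left ?_ (pm_nonneg hw _)
        have h2 : bt w φ ((S i).filter fun e => q e = c) ^ 2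
            ≤ ∑ j, bt w φ (splt S i q c j) ^ 2 := by
          have h3 := single_le_sum (f := fun j => bt w φ (splt S i q c j) ^ 2)
            (fun j _ => sq_nonneg _) (mem_univ i)
          have h4 : splt S i q c i = (S i).filter fun e => q e = c := by
            unfold splt; rw [Function.update_self]
          simp only [h4] at h3
          exact h3
        unfold vv
        have h5 : (1 : ℝ) ≤ zz w φ (splt S i q c) ^ 2 := by nlinarith
        nlinarith [sq_nonneg (bt w φ ((S i).filter fun e => q e = c) - 1)]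
      have a1 := hl (splt S i q false) (hch false)
      have a2 := hr (splt S i q true) (hch true)
      simp only [leaf]
      linarith
    · have hp := pm_nonneg hw S
      have h4 : leaf (fun h S => good h * pm (fun e => w e * (1 + φ e)) S) (Prot.say i q l r) S
          ≤ pm (fun e => w e * (1 + φ e)) S := by
        rw [← leaf_pm (fun e => w e * (1 + φ e)) (Prot.say i q l r) S]
        refine leaf_mono (fun a S => ?_) _ _
        exact mul_le_of_le_one_left (pm_nonneg (tilt_nonneg' hw hφ) S) (hg1 a)
      have h5 : 0 ≤ leaf (fun h S => good h * pm w S) (Prot.say i q l r) S := by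
        have : leaf (fun _ _ => (0 : ℝ)) (Prot.say i q l r) S
            ≤ leaf (fun h S => good h * pm w S) (Prot.say i q l r) S :=
          leaf_mono (fun a S => mul_nonneg (hg0 a) (pm_nonneg hw S)) _ _
        have h0 : leaf (fun _ _ => (0 : ℝ)) (Prot.say i q l r) S = 0 := by
          have := leaf_mul (H := H) 0 (fun _ _ => (0 : ℝ)) (Prot.say i q l r) S
          simpa using this
        linarith
      have h8 := mul_le_mul_of_nonneg_left (vv_le_leaf (φ := φ) hw (Prot.say i q l r) S)
        (Real.exp_pos 2).le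
      have h9 := mul_nonneg (Real.exp_pos 1).le h5
      have h10 := hS h
      linarith

end Pool.Agent.Q126.BL
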