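import Pool.Agent.Q126.BL.Defs
import Pool.Agent.Y636.CL.JUp

/-!
One large batch suffices.
-/

set_option autoImplicit false

namespace Pool.Agent.Q126.BL

open Finset Pool.Agent.W964.Wd Pool.Agent.Y636.CL

variable {m k t : ℕ}

open Classical in
/-- The places of the relevant variables of a candidate that is consistent with the batch. -/
noncomputable def consC (G : Finset ((Fin k → Bool) → Bool)) (s₀ : Fin k → Fin m)
    (e : Fin t → Ex m) : Fin k → Fin m :=
  if h : ∃ γ : Cd m k, γ.2 ∈ G ∧ ∀ i, junta γ.2 γ.1 (e i).1 = (e i).2 then h.choose.1 else s₀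

theorem consC_spec {G : Finset ((Fin k → Bool) → Bool)} (s₀ : Fin k → Fin m)
    {e : Fin t → Ex m} (h : ∃ γ : Cd m k, γ.2 ∈ G ∧ ∀ i, junta γ.2 γ.1 (e i).1 = (e i).2) :
    ∃ γ : Cd m k, γ.2 ∈ G ∧ (∀ i, junta γ.2 γ.1 (e i).1 = (e i).2) ∧ consC G s₀ e = γ.1 := by
  unfold consC
  rw [dif_pos h]
  exact ⟨h.choose, h.choose_spec.1, h.choose_spec.2, rfl⟩

/-- A protocol with one party that outputs a function of an element of a small set. -/
theorem exists_one {E H A : Type} [Fintype A] [Nonempty H] (b : ℕ)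
    (hb : Fintype.card A ≤ 2 ^ b) (F : E → A) (o : A → H) :
    ∃ π : Prot 1 E H, (∀ e, π.run e = o (F (e 0))) ∧ (∀ j, π.load j ≤ b) ∧ π.Silent b := by
  classical
  have hc : Fintype.card A ≤ Fintype.card (Fin b → Bool) := by
    rw [Fintype.card_fun, Fintype.card_bool, Fintype.card_fin]
    exact hb
  obtain ⟨ι⟩ := Function.Embedding.nonempty_of_card_le hc
  refine exists_silent (fun (_ : Fin 1) (κ : Fin b) (e : E) => ι (F e) κ)
    (fun e => o (F (e 0))) ?_
  intro e e' h
  have h1 : ι (F (e 0)) = ι (F (e' 0)) := funext fun κ => h 0 κ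
  show o (F (e 0)) = o (F (e' 0))
  rw [ι.injective h1]

/-- One batch suffices. -/
theorem batch_up {η δ : ℝ} (hδ : 0 < δ) (G : Finset ((Fin k → Bool) → Bool))
    (hG : G.Nonempty)
    (ht : k * Real.log m + Real.log G.card + Real.log (1 / δ) ≤ η * t) :
    ∃ π : Prot 1 (Fin t → Ex m) (Finset (Fin m)),
      (∀ j, π.load j ≤ Nat.clog 2 (m ^ k)) ∧ π.Silent (Nat.clog 2 (m ^ k)) ∧
      ∀ g ∈ G, ∀ s : Fin k → Fin m,
        1 - δ ≤ batchProb π.run (junta g s)
          (fun A => A.card ≤ k ∧ 1 / 2 - η ≤ adv (junta g s) A) := by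
  classical
  by_cases hne : Nonempty (Fin k → Fin m)
  swap
  · have hA : Fintype.card (Fin k → Fin m) ≤ 2 ^ Nat.clog 2 (m ^ k) := by
      rw [Fintype.card_fun, Fintype.card_fin, Fintype.card_fin]
      exact Nat.le_pow_clog (by norm_num) _
    refine ⟨.out ∅, fun j => Nat.zero_le _, ⟨fun _ _ _ => false, fun _ => ∅, fun e => rfl⟩,
      fun g _ s => absurd ⟨s⟩ hne⟩
  obtain ⟨s₀⟩ := hne
  have hm1 : 1 ≤ k → 1 ≤ m := by
    intro hk
    have := (s₀ ⟨0, hk⟩).isLt
    omega
  obtain ⟨π, hπ1, hπ2, hπ3⟩ := exists_one (E := Fin t → Ex m) (H := Finset (Fin m))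
    (A := Fin k → Fin m) (Nat.clog 2 (m ^ k)) (by
      rw [Fintype.card_fun, Fintype.card_fin, Fintype.card_fin]
      exact Nat.le_pow_clog (by norm_num) _) (consC G s₀) (fun s => univ.image s)
  refine ⟨π, hπ2, hπ3, fun g hg s => ?_⟩
  obtain ⟨f, hf⟩ : ∃ f : Hy m, f = junta g s := ⟨_, rfl⟩
  rw [← hf]
  have h2n : (0 : ℝ) < 2 ^ m := by positivity
  -- the bad candidates
  set Bad : Finset (Cd m k) := univ.filter fun γ => γ.2 ∈ G ∧
    η * 2 ^ m < ((univ.filter fun x : Fin m → Bool => junta γ.2 γ.1 x ≠ f x).card : ℝ) with hBad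
  -- a failure means that some bad candidate is consistent
  have hgood : ∀ X : Fin 1 → Fin t → Fin m → Bool,
      (∀ γ ∈ Bad, ∃ i, junta γ.2 γ.1 (X 0 i) ≠ f (X 0 i)) →
      (π.run fun i j => (X i j, f (X i j))).card ≤ k ∧
        1 / 2 - η ≤ adv f (π.run fun i j => (X i j, f (X i j))) := by
    intro X h
    obtain ⟨γ, hγ1, hγ2, hγ3⟩ := consC_spec (G := G) s₀ (e := fun j => (X 0 j, f (X 0 j)))
      ⟨(s, g), hg, fun i => by rw [hf]⟩
    rw [hπ1]
    have hγ4 : (univ.image (consC G s₀ fun j => (X 0 j, f (X 0 j)))) = cv γ := by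
      rw [hγ3]; rfl
    rw [hγ4]
    refine ⟨card_cv γ, adv_ge f γ ?_⟩
    by_contra hcon
    push Not at hcon
    obtain ⟨i, hi⟩ := h γ (mem_filter.2 ⟨mem_univ _, hγ1, hcon⟩)
    exact hi (hγ2 i)
  -- the probability that a bad candidate is consistent
  have hbadT : ∀ γ ∈ Bad, ((univ.filter fun X : Fin 1 → Fin t → Fin m → Bool =>
      ∀ i, junta γ.2 γ.1 (X 0 i) = f (X 0 i)).card : ℝ)
      ≤ Real.exp (-(η * t)) * (2 ^ m) ^ t := by
    intro γ hγ
    have hγb := (mem_filter.1 hγ).2.2
    set Z : Finset (Fin m → Bool) :=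
      univ.filter fun x => junta γ.2 γ.1 x ≠ f x with hZ
    have h1 : (univ.filter fun X : Fin 1 → Fin t → Fin m → Bool =>
        ∀ i, junta γ.2 γ.1 (X 0 i) = f (X 0 i)).card
        ≤ (Fintype.piFinset fun _ : Fin t => Zᶜ).card := by
      refine card_le_card_of_injOn (fun X => X 0) ?_ ?_
      · intro X hX
        have hX := (mem_filter.1 hX).2
        rw [mem_coe, Fintype.mem_piFinset]
        intro i
        rw [mem_compl, hZ, mem_filter]
        push Not
        exact fun _ => hX i
      · intro X _ Y _ hXY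
        funext i
        rw [Subsingleton.elim i 0]
        exact hXY
    have h2 : ((Fintype.piFinset fun _ : Fin t => Zᶜ).card : ℝ)
        = ((2 : ℝ) ^ m - Z.card) ^ t := by
      rw [Fintype.card_piFinset_const, card_compl, Fintype.card_fun,
        Fintype.card_fin, Fintype.card_bool, Nat.cast_pow, Nat.cast_sub]
      · push_cast
        rfl
      · have := card_le_univ Z
        rwa [Fintype.card_fun, Fintype.card_fin, Fintype.card_bool] at this
    have hZle : (Z.card : ℝ) ≤ 2 ^ m := by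
      have := card_le_univ Z
      rw [Fintype.card_fun, Fintype.card_fin, Fintype.card_bool] at this
      exact_mod_cast this
    have h4 : (2 : ℝ) ^ m - Z.card ≤ Real.exp (-η) * 2 ^ m := by
      have h5 := Real.add_one_le_exp (-η)
      have h6 : (1 - η) * 2 ^ m ≤ Real.exp (-η) * 2 ^ m :=
        mul_le_mul_of_nonneg_right (by linarith) h2n.le
      linarith
    have h5 : (0 : ℝ) ≤ (2 : ℝ) ^ m - Z.card := by linarith
    have h1R : ((univ.filter fun X : Fin 1 → Fin t → Fin m → Bool =>
        ∀ i, junta γ.2 γ.1 (X 0 i) = f (X 0 i)).card : ℝ)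
        ≤ ((Fintype.piFinset fun _ : Fin t => Zᶜ).card : ℝ) := by exact_mod_cast h1
    rw [h2] at h1R
    refine h1R.trans ((pow_le_pow_left₀ h5 h4 t).trans (le_of_eq ?_))
    rw [mul_pow, ← Real.exp_nat_mul]
    congr 2
    ring
  -- the union bound
  have hunion : ((univ.filter fun X : Fin 1 → Fin t → Fin m → Bool =>
      ¬ ((π.run fun i j => (X i j, f (X i j))).card ≤ k ∧
        1 / 2 - η ≤ adv f (π.run fun i j => (X i j, f (X i j))))).card : ℝ)
      ≤ δ * (2 ^ m) ^ t := by
    have h1 : (univ.filter fun X : Fin 1 → Fin t → Fin m → Bool =>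
        ¬ ((π.run fun i j => (X i j, f (X i j))).card ≤ k ∧
        1 / 2 - η ≤ adv f (π.run fun i j => (X i j, f (X i j)))))
        ⊆ Bad.biUnion fun γ => univ.filter fun X : Fin 1 → Fin t → Fin m → Bool =>
          ∀ i, junta γ.2 γ.1 (X 0 i) = f (X 0 i) := by
      intro X hX
      have hX := (mem_filter.1 hX).2
      by_contra hcon
      refine hX (hgood X fun γ hγ => ?_)
      rw [mem_biUnion] at hcon
      push Not at hcon
      have h2 := hcon γ hγ
      rw [mem_filter] at h2
      push Not at h2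
      exact h2 (mem_univ _)
    have h2 : ((univ.filter fun X : Fin 1 → Fin t → Fin m → Bool =>
        ¬ ((π.run fun i j => (X i j, f (X i j))).card ≤ k ∧
        1 / 2 - η ≤ adv f (π.run fun i j => (X i j, f (X i j))))).card : ℝ)
        ≤ ∑ γ ∈ Bad, ((univ.filter fun X : Fin 1 → Fin t → Fin m → Bool =>
          ∀ i, junta γ.2 γ.1 (X 0 i) = f (X 0 i)).card : ℝ) := by
      exact_mod_cast (card_le_card h1).trans card_biUnion_le
    have h3 := sum_le_card_nsmul Bad _ _ hbadT
    rw [nsmul_eq_mul] at h3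
    have h4 : (Bad.card : ℝ) ≤ (m : ℝ) ^ k * G.card := by
      have h5 : Bad ⊆ (univ : Finset (Fin k → Fin m)) ×ˢ G := by
        intro γ hγ
        exact mem_product.2 ⟨mem_univ _, (mem_filter.1 hγ).2.1⟩
      have h6 := card_le_card h5
      rw [card_product, card_univ, Fintype.card_fun, Fintype.card_fin, Fintype.card_fin] at h6
      exact_mod_cast h6
    have hGp : (0 : ℝ) < G.card := by exact_mod_cast hG.card_pos
    have h6 : ((m : ℝ) ^ k * G.card) * Real.exp (-(η * t)) ≤ δ := by
      have h7 : (m : ℝ) ^ k = Real.exp (k * Real.log m) := by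
        rcases Nat.eq_zero_or_pos k with hk | hk
        · rw [hk]; simp
        · have : (0 : ℝ) < m := by exact_mod_cast hm1 hk
          rw [Real.exp_nat_mul, Real.exp_log this]
      have h8 : (G.card : ℝ) = Real.exp (Real.log G.card) := (Real.exp_log hGp).symm
      rw [h7]
      conv_lhs => rw [h8]
      rw [← Real.exp_add, ← Real.exp_add]
      calc Real.exp (k * Real.log m + Real.log G.card + -(η * t))
          ≤ Real.exp (-Real.log (1 / δ)) := Real.exp_le_exp.2 (by linarith)
        _ = δ := by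
          rw [one_div, Real.log_inv, neg_neg, Real.exp_log hδ]
    have h8 : (0 : ℝ) ≤ Real.exp (-(η * t)) * (2 ^ m) ^ t := by positivity
    calc _ ≤ _ := h2
      _ ≤ _ := h3
      _ ≤ ((m : ℝ) ^ k * G.card) * (Real.exp (-(η * t)) * (2 ^ m) ^ t) :=
        mul_le_mul_of_nonneg_right h4 h8
      _ = ((m : ℝ) ^ k * G.card) * Real.exp (-(η * t)) * (2 ^ m) ^ t := by ring
      _ ≤ _ := mul_le_mul_of_nonneg_right h6 (by positivity)
  have htot := card_filter_add_card_filter_not (s := (univ : Finset (Fin 1 → Fin t →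
    Fin m → Bool))) (fun X =>
      ((π.run fun i j => (X i j, f (X i j))).card ≤ k ∧
        1 / 2 - η ≤ adv f (π.run fun i j => (X i j, f (X i j)))))
  have htotR : ((univ.filter fun X : Fin 1 → Fin t → Fin m → Bool =>
      ((π.run fun i j => (X i j, f (X i j))).card ≤ k ∧
        1 / 2 - η ≤ adv f (π.run fun i j => (X i j, f (X i j))))).card : ℝ)
      + ((univ.filter fun X : Fin 1 → Fin t → Fin m → Bool =>
      ¬ ((π.run fun i j => (X i j, f (X i j))).card ≤ k ∧
        1 / 2 - η ≤ adv f (π.run fun i j => (X i j, f (X i j))))).card : ℝ)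
      = (2 ^ m) ^ t := by
    rw [← Nat.cast_add, htot, card_univ, Fintype.card_fun, Fintype.card_fun, Fintype.card_fun,
      Fintype.card_fin, Fintype.card_fin, Fintype.card_fin, Fintype.card_bool]
    push_cast
    ring
  unfold batchProb
  rw [le_div_iff₀ (by positivity), pow_one]
  simp only at htotR hunion ⊢
  linarith

end Pool.Agent.Q126.BL
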