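import Pool.Agent.Q126.BL.Lev

/-!
Batches of labelled examples: the likelihood ratio of a balanced junta.
-/

set_option autoImplicit false

namespace Pool.Agent.Q126.BL

open Finset Pool.Agent.TH661.LPX Pool.Agent.Y636.CL Pool.Agent.W964.Wd

section characters

variable {I : Type*} [Fintype I] [DecidableEq I]

theorem fI_ch {A B : Finset I} (h : fI (ch A) B ≠ 0) : A = B := by
  by_contra hne
  refine h ?_
  unfold fI ch
  have h1 : ∀ x : I → Bool, (∏ p ∈ A, Pool.Agent.TH661.LPX.sg (x p)) *
      ∏ p ∈ B, Pool.Agent.TH661.LPX.sg (x p)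
      = ∏ p, (fun (p : I) (b : Bool) => (if p ∈ A then Pool.Agent.TH661.LPX.sg b else 1) *
        (if p ∈ B then Pool.Agent.TH661.LPX.sg b else 1)) p (x p) := by
    intro x
    rw [prod_mul_distrib]
    congr 1 <;> rw [prod_ite_mem, univ_inter]
  rw [av_congr h1, av_pi (fun (p : I) (b : Bool) =>
    (if p ∈ A then Pool.Agent.TH661.LPX.sg b else 1) *
        (if p ∈ B then Pool.Agent.TH661.LPX.sg b else 1))]
  obtain ⟨p, hp⟩ : ∃ p, ¬ (p ∈ A ↔ p ∈ B) := by
    by_contra hcon
    push Not at hcon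
    exact hne (Finset.ext hcon)
  refine prod_eq_zero (mem_univ p) ?_
  by_cases hA : p ∈ A
  · have hB : p ∉ B := fun h => hp ⟨fun _ => h, fun _ => hA⟩
    simp only [hA, hB, if_true, if_false, mul_one]
    exact av_sg
  · have hB : p ∈ B := by
      by_contra hB
      exact hp ⟨fun h => absurd h hA, fun h => absurd h hB⟩
    simp only [hA, hB, if_true, if_false, one_mul]
    exact av_sg

omit [Fintype I] [DecidableEq I] in
theorem ch_empty (x : I → Bool) : ch (∅ : Finset I) x = 1 := by simp [ch]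

theorem fI_one {B : Finset I} (h : B ≠ ∅) : fI (fun _ : I → Bool => (1 : ℝ)) B = 0 := by
  by_contra hne
  have h1 : (fun _ : I → Bool => (1 : ℝ)) = ch (∅ : Finset I) := by
    funext x; rw [ch_empty]
  rw [h1] at hne
  exact h (fI_ch hne).symm

theorem fI_add (F G : (I → Bool) → ℝ) (T : Finset I) :
    fI (fun x => F x + G x) T = fI F T + fI G T := by
  unfold fI
  rw [← av_add]
  exact av_congr fun x => by ring

theorem fI_sub (F G : (I → Bool) → ℝ) (T : Finset I) :
    fI (fun x => F x - G x) T = fI F T - fI G T := by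
  unfold fI
  rw [← av_sub]
  exact av_congr fun x => by ring

theorem fI_empty (F : (I → Bool) → ℝ) : fI F ∅ = av F := by
  unfold fI
  exact av_congr fun x => by simp

end characters

variable {m k t : ℕ}

/-- The bits of a batch of `t` labelled examples. -/
abbrev Bi (m t : ℕ) := Fin t × Option (Fin m)

/-- The bits of an attribute. -/
def col (m t : ℕ) (j : Fin m) : Finset (Bi m t) := univ.filter fun p => p.2 = some j

/-- The likelihood ratio of a target and of random labels, minus one. -/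
noncomputable def ll (f : Hy m) (e : Fin t → Ex m) : ℝ := ∏ i, (1 + pf f (e i)) - 1

theorem one_add_pf (f : Hy m) (e : Ex m) : 0 ≤ 1 + pf f e ∧ 1 + pf f e ≤ 2 := by
  have h := abs_le.1 (abs_pf_le f e)
  constructor <;> linarith [h.1, h.2]

theorem ll_ge (f : Hy m) (e : Fin t → Ex m) : -1 ≤ ll f e := by
  unfold ll
  have : 0 ≤ ∏ i, (1 + pf f (e i)) := prod_nonneg fun i _ => (one_add_pf f (e i)).1
  linarith

theorem ll_le (f : Hy m) (e : Fin t → Ex m) : 1 + ll f e ≤ 2 ^ t := by
  unfold ll
  have h : ∏ i, (1 + pf f (e i)) ≤ ∏ _i : Fin t, (2 : ℝ) :=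
    prod_le_prod (fun i _ => (one_add_pf f (e i)).1) fun i _ => (one_add_pf f (e i)).2
  rw [prod_const, card_univ, Fintype.card_fin] at h
  linarith

theorem abs_ll_le (f : Hy m) (e : Fin t → Ex m) : |ll f e| ≤ 2 ^ t := by
  have h1 := ll_ge f e
  have h2 := ll_le f e
  have h3 : (1 : ℝ) ≤ 2 ^ t := one_le_pow₀ (by norm_num)
  rw [abs_le]
  constructor <;> linarith

/-- The bits of a batch as a batch. -/
def tb (m t : ℕ) : (Bi m t → Bool) ≃ (Fin t → Ex m) where
  toFun z i := (fun j => z (i, some j), z (i, none))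
  invFun e p := p.2.elim (e p.1).2 (e p.1).1
  left_inv z := by
    funext p
    obtain ⟨i, o⟩ := p
    cases o <;> rfl
  right_inv e := by
    funext i
    rfl

/-- The likelihood ratio of one example. -/
noncomputable def G1 (f : Hy m) (u : Option (Fin m) → Bool) : ℝ :=
  1 + Pool.Agent.TH661.LPX.sg (u none) * Pool.Agent.TH661.LPX.sg (f fun j => u (some j))

theorem ll_tb (f : Hy m) (z : Bi m t → Bool) :
    ll f (tb m t z) = (∏ i, G1 f fun o => z (i, o)) - 1 := rfl

/-- The Fourier coefficients of a product over the examples. -/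
theorem fI_prod (G : (Option (Fin m) → Bool) → ℝ) (T : Finset (Bi m t)) :
    fI (fun z : Bi m t → Bool => ∏ i, G fun o => z (i, o)) T
      = ∏ i, fI G (univ.filter fun o => (i, o) ∈ T) := by
  unfold fI
  have h1 : ∀ z : Bi m t → Bool, (∏ i, G fun o => z (i, o)) * ∏ p ∈ T,
      Pool.Agent.TH661.LPX.sg (z p)
      = ∏ i, (fun (_ : Fin t) (u : Option (Fin m) → Bool) => G u *
        ∏ o ∈ univ.filter (fun o => (i, o) ∈ T), Pool.Agent.TH661.LPX.sg (u o)) i
          (fun o => z (i, o)) := by
    intro z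
    rw [prod_mul_distrib]
    congr 1
    have h0 : ∏ p ∈ T, Pool.Agent.TH661.LPX.sg (z p)
        = ∏ p, if p ∈ T then Pool.Agent.TH661.LPX.sg (z p) else 1 := by
      rw [prod_ite_mem, univ_inter]
    rw [h0, Fintype.prod_prod_type]
    refine prod_congr rfl fun i _ => ?_
    rw [prod_filter]
  rw [av_congr h1]
  have h2 := av_equiv (Equiv.curry (Fin t) (Option (Fin m)) Bool)
    (fun y => ∏ i, (fun (i : Fin t) (u : Option (Fin m) → Bool) => G u *
        ∏ o ∈ univ.filter (fun o => (i, o) ∈ T), Pool.Agent.TH661.LPX.sg (u o)) i (y i))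
  rw [av_pi (fun (i : Fin t) (u : Option (Fin m) → Bool) => G u *
        ∏ o ∈ univ.filter (fun o => (i, o) ∈ T), Pool.Agent.TH661.LPX.sg (u o))] at h2
  rw [← h2]
  rfl

/-- The Fourier coefficients of the likelihood ratio of one example. -/
theorem fI_G1 {c : ℕ} {g : (Fin k → Bool) → Bool} (hg : Balanced c g) (s : Fin k → Fin m)
    (hs : Function.Injective s) {U : Finset (Option (Fin m))} (hU : U ≠ ∅)
    (h : fI (G1 (junta g s)) U ≠ 0) :
    ∃ V : Finset (Fin k), c + 1 ≤ V.card ∧ ∀ j, some j ∈ U ↔ j ∈ V.image s := by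
  unfold G1 at h
  rw [fI_add, fI_one hU, zero_add] at h
  -- expand the target
  obtain ⟨G, hG⟩ : ∃ G : (Fin k → Bool) → ℝ, G = fun y => Pool.Agent.TH661.LPX.sg (g y) :=
    ⟨_, rfl⟩
  have h1 : ∀ u : Option (Fin m) → Bool,
      Pool.Agent.TH661.LPX.sg (u none) * Pool.Agent.TH661.LPX.sg (junta g s fun j => u (some j))
      = ∑ V : Finset (Fin k), fI G V * ch (insert none (V.image fun h => some (s h))) u := by
    intro u
    have h2 : Pool.Agent.TH661.LPX.sg (junta g s fun j => u (some j))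
        = G fun h => u (some (s h)) := by
      rw [hG]; rfl
    rw [h2, fI_inv G, mul_sum]
    refine sum_congr rfl fun V _ => ?_
    unfold ch
    rw [prod_insert (by simp), prod_image fun a _ b _ h => hs (Option.some_injective _ h)]
    ring
  have h2 : fI (fun u : Option (Fin m) → Bool => Pool.Agent.TH661.LPX.sg (u none) *
      Pool.Agent.TH661.LPX.sg (junta g s fun j => u (some j))) U
      = ∑ V : Finset (Fin k), fI G V *
        fI (ch (insert none (V.image fun h => some (s h)))) U := by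
    unfold fI
    have h3 : ∀ u : Option (Fin m) → Bool,
        Pool.Agent.TH661.LPX.sg (u none) *
          Pool.Agent.TH661.LPX.sg (junta g s fun j => u (some j)) *
          ∏ p ∈ U, Pool.Agent.TH661.LPX.sg (u p)
        = ∑ V : Finset (Fin k), fI G V *
          (ch (insert none (V.image fun h => some (s h))) u *
            ∏ p ∈ U, Pool.Agent.TH661.LPX.sg (u p)) := by
      intro u
      rw [h1, sum_mul]
      exact sum_congr rfl fun V _ => by ring
    rw [av_congr h3, av_sum]
    exact sum_congr rfl fun V _ => by rw [av_mul_left]; rfl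
  rw [h2] at h
  obtain ⟨V, _, hV⟩ := exists_ne_zero_of_sum_ne_zero h
  have hV1 : fI G V ≠ 0 := fun h => hV (by rw [h, zero_mul])
  have hV2 : fI (ch (insert none (V.image fun h => some (s h)))) U ≠ 0 :=
    fun h => hV (by rw [h, mul_zero])
  have hV3 := fI_ch hV2
  refine ⟨V, ?_, fun j => ?_⟩
  · by_contra hcon
    refine hV1 ?_
    rw [hG]
    exact fI_balanced hg V (by omega)
  · rw [← hV3]
    simp

theorem av_G1 (g : (Fin k → Bool) → Bool) (s : Fin k → Fin m) :
    fI (G1 (junta g s)) ∅ = 1 := by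
  classical
  rw [fI_empty]
  unfold G1
  rw [av_add, av_const]
  -- flip the label
  let fl : (Option (Fin m) → Bool) ≃ (Option (Fin m) → Bool) :=
    { toFun := fun u o => if o = none then !(u o) else u o
      invFun := fun u o => if o = none then !(u o) else u o
      left_inv := fun u => by funext o; by_cases h : o = none <;> simp [h]
      right_inv := fun u => by funext o; by_cases h : o = none <;> simp [h] }
  obtain ⟨Ψ, hΨ⟩ : ∃ Ψ : (Option (Fin m) → Bool) → ℝ, Ψ = fun u =>
    Pool.Agent.TH661.LPX.sg (u none) *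
      Pool.Agent.TH661.LPX.sg (junta g s fun j => u (some j)) := ⟨_, rfl⟩
  have h1 := av_equiv fl Ψ
  have h2 : ∀ u, Ψ (fl u) = -1 * Ψ u := by
    intro u
    have e1 : fl u none = !(u none) := by simp [fl]
    have e2 : (fun j => fl u (some j)) = fun j => u (some j) := by funext j; simp [fl]
    have e3 : Pool.Agent.TH661.LPX.sg (!(u none)) = -Pool.Agent.TH661.LPX.sg (u none) := by
      cases u none <;> simp [Pool.Agent.TH661.LPX.sg]
    rw [hΨ]
    simp only
    rw [e1, e2, e3]
    ring
  rw [av_congr h2, av_mul_left] at h1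
  rw [← hΨ]
  linarith

/-- The Fourier coefficients of the likelihood ratio of a batch. -/
theorem supp_ll {c : ℕ} {g : (Fin k → Bool) → Bool} (hg : Balanced c g) (s : Fin k → Fin m)
    (hs : Function.Injective s) (T : Finset (Bi m t))
    (h : fI (fun z => ll (junta g s) (tb m t z)) T ≠ 0) :
    ∃ V : Finset (Fin k), c + 1 ≤ V.card ∧ tc (col m t) T = V.image s := by
  classical
  have h1 : fI (fun z => ll (junta g s) (tb m t z)) T
      = ∏ i, fI (G1 (junta g s)) (univ.filter fun o => (i, o) ∈ T)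
        - fI (fun _ : Bi m t → Bool => (1 : ℝ)) T := by
    rw [← fI_prod, ← fI_sub]
    rfl
  rw [h1] at h
  have hT : T ≠ ∅ := by
    rintro rfl
    refine h ?_
    rw [fI_empty, av_const]
    have h2 : ∀ i : Fin t, fI (G1 (junta g s))
        (univ.filter fun o => (i, o) ∈ (∅ : Finset (Bi m t))) = 1 := by
      intro i
      have : (univ.filter fun o : Option (Fin m) => (i, o) ∈ (∅ : Finset (Bi m t))) = ∅ := by
        ext o; simp
      rw [this, av_G1 g s]
    rw [prod_congr rfl fun i _ => h2 i]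
    simp
  rw [fI_one hT, sub_zero] at h
  have h2 : ∀ i : Fin t, ∃ V : Finset (Fin k),
      (∀ j, (i, some j) ∈ T ↔ j ∈ V.image s) ∧ ((∃ o, (i, o) ∈ T) → c + 1 ≤ V.card) := by
    intro i
    have h3 : fI (G1 (junta g s)) (univ.filter fun o => (i, o) ∈ T) ≠ 0 :=
      fun h4 => h (prod_eq_zero (mem_univ i) h4)
    by_cases he : (univ.filter fun o : Option (Fin m) => (i, o) ∈ T) = ∅
    · refine ⟨∅, fun j => ?_, ?_⟩
      · constructor
        · intro hj
          have : some j ∈ (univ.filter fun o : Option (Fin m) => (i, o) ∈ T) :=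
            mem_filter.2 ⟨mem_univ _, hj⟩
          rw [he] at this
          exact absurd this (notMem_empty _)
        · intro hj
          simp at hj
      · rintro ⟨o, ho⟩
        have : o ∈ (univ.filter fun o : Option (Fin m) => (i, o) ∈ T) :=
          mem_filter.2 ⟨mem_univ _, ho⟩
        rw [he] at this
        exact absurd this (notMem_empty _)
    · obtain ⟨V, hV1, hV2⟩ := fI_G1 hg s hs he h3
      refine ⟨V, fun j => ?_, fun _ => hV1⟩
      rw [← hV2]
      simp
  choose V hV1 hV2 using h2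
  refine ⟨univ.biUnion V, ?_, ?_⟩
  · obtain ⟨p, hp⟩ := nonempty_iff_ne_empty.2 hT
    refine (hV2 p.1 ⟨p.2, hp⟩).trans (card_le_card ?_)
    exact subset_biUnion_of_mem V (mem_univ p.1)
  · ext j
    unfold tc
    rw [mem_filter, not_disjoint_iff, mem_image]
    constructor
    · rintro ⟨_, p, hp, hpc⟩
      have hpj : p.2 = some j := (mem_filter.1 hpc).2
      have h3 : (p.1, some j) ∈ T := by rw [← hpj]; exact hp
      obtain ⟨h', hh', he⟩ := mem_image.1 ((hV1 p.1 j).1 h3)
      exact ⟨h', mem_biUnion.2 ⟨p.1, mem_univ _, hh'⟩, he⟩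
    · rintro ⟨h', hh', he⟩
      obtain ⟨i, _, hi⟩ := mem_biUnion.1 hh'
      refine ⟨mem_univ _, (i, some j), ?_, mem_filter.2 ⟨mem_univ _, rfl⟩⟩
      exact (hV1 i j).2 (mem_image.2 ⟨h', hi, he⟩)

/-- The uniform weight of a batch. -/
noncomputable def bw (m t : ℕ) (_ : Fin t → Ex m) : ℝ := ((2 ^ m * 2) ^ t)⁻¹

theorem bw_nonneg (e : Fin t → Ex m) : 0 ≤ bw m t e := by unfold bw; positivity

theorem ms_bw (A : Finset (Fin t → Ex m)) (φ : (Fin t → Ex m) → ℝ) :
    ms (fun e => bw m t e * φ e) A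
      = av fun z : Bi m t → Bool => (if tb m t z ∈ A then (1 : ℝ) else 0) * φ (tb m t z) := by
  have h1 := av_equiv (tb m t) (fun e => (if e ∈ A then (1 : ℝ) else 0) * φ e)
  rw [h1]
  unfold ms av bw
  have h2 : (Fintype.card (Fin t → Ex m) : ℝ) = (2 ^ m * 2) ^ t := by
    rw [Fintype.card_fun, Fintype.card_prod, Fintype.card_fun, Fintype.card_fin,
      Fintype.card_fin, Fintype.card_bool]
    push_cast
    rfl
  rw [h2, ← mul_sum, inv_mul_eq_div]
  congr 1
  rw [← sum_filter_add_sum_filter_not univ (fun e => e ∈ A)]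
  have h3 : ∑ e ∈ univ.filter (fun e => e ∉ A), (if e ∈ A then (1 : ℝ) else 0) * φ e = 0 := by
    refine sum_eq_zero fun e he => ?_
    rw [if_neg (mem_filter.1 he).2, zero_mul]
  have h4 : (univ : Finset (Fin t → Ex m)).filter (fun e => e ∈ A) = A := by
    ext e; simp
  rw [h3, add_zero, h4]
  exact sum_congr rfl fun e he => by rw [if_pos he, one_mul]

theorem ms_bw_one (A : Finset (Fin t → Ex m)) :
    ms (bw m t) A = av fun z : Bi m t → Bool => if tb m t z ∈ A then (1 : ℝ) else 0 := by
  have h1 := ms_bw A fun _ => 1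
  simp only [mul_one] at h1
  exact h1

theorem nn_ind {ρ : ℝ} (h0 : 0 ≤ ρ) (A : Finset (Fin t → Ex m)) :
    nn ρ (fun z : Bi m t → Bool => if tb m t z ∈ A then (1 : ℝ) else 0)
      = ms (bw m t) A ^ (2 / (1 + ρ)) := by
  unfold nn
  rw [ms_bw_one]
  congr 1
  refine av_congr fun z => ?_
  show |if tb m t z ∈ A then (1 : ℝ) else 0| ^ (1 + ρ) = if tb m t z ∈ A then (1 : ℝ) else 0
  split_ifs
  · rw [abs_one, Real.one_rpow]
  · rw [abs_zero, Real.zero_rpow (by linarith)]

/-- The level inequality, summed over all places of the relevant variables. -/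
theorem batch_level {c : ℕ} {g : (Fin k → Bool) → Bool} (hg : Balanced c g) {ρ : ℝ} (h0 : 0 < ρ)
    (h1 : ρ ≤ 1) (hM : 2 ≤ ρ * (m / k : ℕ)) (A : Finset (Fin t → Ex m)) :
    ∑ κ : Fin k → Fin (m / k), ms (fun e => bw m t e * ll (junta g (pk κ)) e) A ^ 2
      ≤ (2 ^ t) ^ 2 * 2 ^ k * (2 * ((m / k : ℕ) : ℝ) ^ k * (1 / (ρ * (m / k : ℕ))) ^ (c + 1)
        * ms (bw m t) A ^ (2 / (1 + ρ))) := by
  have h2 := sum_pairing (F := fun z : Bi m t → Bool => if tb m t z ∈ A then (1 : ℝ) else 0)
    (col m t) h0 h1 hM (fun κ z => ll (junta g (pk κ)) (tb m t z))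
    (fun κ z => abs_ll_le _ _) c (fun κ T h => supp_ll hg (pk κ) (pk_inj κ) T h)
  rw [nn_ind h0.le] at h2
  refine le_trans (le_of_eq ?_) h2
  exact sum_congr rfl fun κ _ => by rw [ms_bw]

end Pool.Agent.Q126.BL
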