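import Pool.Agent.Y636.CL.JDefs

/-!
Finding relevant variables with protocols whose parties hold a batch of labelled examples each:
definitions.
-/

set_option autoImplicit false

namespace Pool.Agent.Q126.BL

open Finset Pool.Agent.W964.Wd Pool.Agent.Y636.CL

open Classical in
/-- The probability, over `N * t` independent uniformly distributed points `X i j`, that `E` holds
for the set of variables which `A` outputs on the `N` batches of the `t` examples
`(X i j, f (X i j))`, `j < t`. -/
noncomputable def batchProb {m t N : ℕ} (A : (Fin N → Fin t → Ex m) → Finset (Fin m)) (f : Hy m)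
    (E : Finset (Fin m) → Prop) : ℝ :=
  ((univ.filter fun X : Fin N → Fin t → Fin m → Bool =>
    E (A fun i j => (X i j, f (X i j)))).card : ℝ) / ((2 ^ m) ^ t) ^ N

/-- The average of `batchProb` over a finite family of learners: the success probability of a
randomized learner. -/
noncomputable def batchProbR {m t N : ℕ} {R : Type} [Fintype R]
    (A : R → (Fin N → Fin t → Ex m) → Finset (Fin m)) (f : Hy m) (E : Finset (Fin m) → Prop) : ℝ :=
  (∑ r, batchProb (A r) f E) / Fintype.card R

end Pool.Agent.Q126.BL
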