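import Pool.Agent.Q126.BL.Lp
import Pool.Agent.Y636.CL.JLow

/-!
The level inequality for columns of bits and bounded kernels.
-/

set_option autoImplicit false

namespace Pool.Agent.Q126.BL

open Finset Pool.Agent.TH661.LPX Pool.Agent.Y636.CL

section columns

variable {I : Type*} [Fintype I] [DecidableEq I] {m k : ℕ}

/-- The columns met by a set of bits. -/
def tc (C : Fin m → Finset I) (T : Finset I) : Finset (Fin m) :=
  univ.filter fun j => ¬ Disjoint T (C j)

/-- The sets of bits which meet, among the columns in `J`, exactly the columns in `S`. -/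
def cls (C : Fin m → Finset I) (J S : Finset (Fin m)) : Finset (Finset I) :=
  univ.filter fun T => J.filter (fun j => ¬ Disjoint T (C j)) = S

theorem pr_univ (F : (I → Bool) → ℝ) : pr univ F = F := by
  funext x
  exact (fI_inv F x).symm

/-- The level inequality for columns. -/
theorem sum_level (C : Fin m → Finset I) {ρ : ℝ} (h0 : 0 ≤ ρ) (h1 : ρ ≤ 1)
    (F : (I → Bool) → ℝ) (J : Finset (Fin m)) :
    ∑ S ∈ J.powerset, ρ ^ S.card * nn ρ (pr (cls C J S) F) ≤ nn ρ F := by
  induction J using Finset.induction_on with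
  | empty =>
    rw [powerset_empty, sum_singleton, card_empty, pow_zero, one_mul]
    have : cls C (∅ : Finset (Fin m)) ∅ = univ := by
      ext T
      simp [cls]
    rw [this, pr_univ]
  | insert a J ha ih =>
    rw [sum_powerset_insert ha, ← sum_add_distrib]
    refine le_trans (sum_le_sum fun S hS => ?_) ih
    have hSJ := mem_powerset.1 hS
    have haS : a ∉ S := fun h => ha (hSJ h)
    have hfi : ∀ T : Finset I, (insert a J).filter (fun j => ¬ Disjoint T (C j))
        = if Disjoint T (C a) then J.filter (fun j => ¬ Disjoint T (C j))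
          else insert a (J.filter (fun j => ¬ Disjoint T (C j))) := by
      intro T
      rw [filter_insert]
      by_cases h2 : Disjoint T (C a)
      · rw [if_pos h2, if_neg (not_not.2 h2)]
      · rw [if_neg h2, if_pos h2]
    have ha1 : ∀ T : Finset I, a ∉ J.filter (fun j => ¬ Disjoint T (C j)) :=
      fun T h3 => ha (mem_filter.1 h3).1
    have e1 : cls C (insert a J) S = (cls C J S).filter fun T => Disjoint T (C a) := by
      ext T
      simp only [cls, mem_filter, mem_univ, true_and]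
      rw [hfi]
      by_cases h2 : Disjoint T (C a)
      · rw [if_pos h2]
        exact ⟨fun h => ⟨h, h2⟩, fun h => h.1⟩
      · rw [if_neg h2]
        refine ⟨fun h => ?_, fun h => absurd h.2 h2⟩
        have : a ∈ S := by rw [← h]; exact mem_insert_self _ _
        exact absurd this haS
    have e2 : cls C (insert a J) (insert a S) = (cls C J S).filter fun T => ¬ Disjoint T (C a) := by
      ext T
      simp only [cls, mem_filter, mem_univ, true_and]
      rw [hfi]
      by_cases h2 : Disjoint T (C a)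
      · rw [if_pos h2]
        refine ⟨fun h => ?_, fun h => absurd h2 h.2⟩
        have : a ∈ J.filter (fun j => ¬ Disjoint T (C j)) := by rw [h]; exact mem_insert_self _ _
        exact absurd this (ha1 T)
      · rw [if_neg h2]
        refine ⟨fun h => ⟨?_, h2⟩, fun h => by rw [h.1]⟩
        rw [← erase_insert (ha1 T), h, erase_insert haS]
    have h2 := one_step h0 h1 (avc (C a)) (avc_lin (C a)) (avc_idem (C a)) (avc_contr h0 (C a))
      (pr (cls C J S) F)
    rw [sub_avc_pr, avc_pr] at h2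
    rw [e1, e2, card_insert_of_notMem haS, pow_succ]
    have h3 := mul_le_mul_of_nonneg_left h2 (pow_nonneg h0 S.card)
    refine le_trans (le_of_eq ?_) h3
    ring

/-- The pairing of two functions. -/
theorem av_mul_eq (F φ : (I → Bool) → ℝ) :
    av (fun x => F x * φ x) = ∑ T : Finset I, fI F T * fI φ T := by
  have h1 : ∀ x, F x * φ x = ∑ T : Finset I, fI F T * (φ x * ∏ p ∈ T, sg (x p)) := by
    intro x
    conv_lhs => rw [fI_inv F x]
    rw [sum_mul]
    exact sum_congr rfl fun T _ => by ring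
  rw [av_congr h1, av_sum]
  exact sum_congr rfl fun T _ => by rw [av_mul_left]; rfl

theorem av_pr_mul (Q : Finset (Finset I)) (F φ : (I → Bool) → ℝ) :
    av (fun x => pr Q F x * φ x) = ∑ T ∈ Q, fI F T * fI φ T := by
  have h1 : ∀ x, pr Q F x * φ x = ∑ T ∈ Q, fI F T * (φ x * ∏ p ∈ T, sg (x p)) := by
    intro x
    unfold pr ch
    rw [sum_mul]
    exact sum_congr rfl fun T _ => by ring
  rw [av_congr h1, av_sum]
  exact sum_congr rfl fun T _ => by rw [av_mul_left]; rfl

theorem sq_av_abs_le {Z : Type*} [Fintype Z] [Nonempty Z] {ρ : ℝ} (h0 : 0 ≤ ρ) (G : Z → ℝ) :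
    (av fun z => |G z|) ^ 2 ≤ nn ρ G := by
  have hcard : (0 : ℝ) < Fintype.card Z := by exact_mod_cast Fintype.card_pos
  have h2 := Real.rpow_arith_mean_le_arith_mean_rpow (univ : Finset Z)
    (fun _ => 1 / (Fintype.card Z : ℝ)) (fun w => |G w|)
    (fun _ _ => by positivity)
    (by rw [sum_const, card_univ, nsmul_eq_mul]; field_simp)
    (fun _ _ => abs_nonneg _) (p := 1 + ρ) (by linarith)
  rw [← mul_sum, ← mul_sum] at h2
  have e1 : 1 / (Fintype.card Z : ℝ) * ∑ w, |G w| = av fun z => |G z| := by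
    unfold av; ring
  have e2 : 1 / (Fintype.card Z : ℝ) * ∑ w, |G w| ^ (1 + ρ) = av fun z => |G z| ^ (1 + ρ) := by
    unfold av; ring
  rw [e1, e2] at h2
  have hA : 0 ≤ av fun z => |G z| := av_nonneg fun _ => abs_nonneg _
  have h3 := Real.rpow_le_rpow (Real.rpow_nonneg hA _) h2 (by positivity : 0 ≤ 2 / (1 + ρ))
  rw [← Real.rpow_mul hA] at h3
  have h4 : (1 + ρ) * (2 / (1 + ρ)) = ((2 : ℕ) : ℝ) := by
    have : 1 + ρ ≠ 0 := by linarith
    field_simp
    norm_num
  rw [h4, Real.rpow_natCast] at h3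
  exact h3

/-- A bounded kernel that depends on few columns and is degenerate of the order `c`. -/
theorem pairing (C : Fin m → Finset I) {ρ B : ℝ} (h0 : 0 ≤ ρ) {F φ : (I → Bool) → ℝ}
    (hφ : ∀ x, |φ x| ≤ B) (c : ℕ) (s : Fin k → Fin m) (hs : Function.Injective s)
    (hsupp : ∀ T, fI φ T ≠ 0 → ∃ U : Finset (Fin k), c + 1 ≤ U.card ∧ tc C T = U.image s) :
    (av fun x => F x * φ x) ^ 2 ≤ B ^ 2 * 2 ^ k *
      ∑ U ∈ univ.filter (fun U : Finset (Fin k) => c + 1 ≤ U.card),
        nn ρ (pr (cls C univ (U.image s)) F) := by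
  have hB : 0 ≤ B := (abs_nonneg _).trans (hφ fun _ => true)
  set Q := univ.filter (fun U : Finset (Fin k) => c + 1 ≤ U.card) with hQ
  have hinj : ∀ U U' : Finset (Fin k), U.image s = U'.image s → U = U' :=
    fun U U' h => image_injective hs h
  have h1 : av (fun x => F x * φ x)
      = ∑ U ∈ Q, av (fun x => pr (cls C univ (U.image s)) F x * φ x) := by
    rw [av_mul_eq]
    have h2 : ∀ U ∈ Q, av (fun x => pr (cls C univ (U.image s)) F x * φ x)
        = ∑ T ∈ univ.filter (fun T => tc C T = U.image s), fI F T * fI φ T := by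
      intro U _
      rw [av_pr_mul]
      rfl
    rw [sum_congr rfl h2, ← sum_biUnion]
    · refine (sum_subset (subset_univ _) fun T _ hT => ?_).symm
      by_contra hne
      have h3 : fI φ T ≠ 0 := fun h => hne (by rw [h, mul_zero])
      obtain ⟨U, hU1, hU2⟩ := hsupp T h3
      refine hT (mem_biUnion.2 ⟨U, mem_filter.2 ⟨mem_univ _, hU1⟩, ?_⟩)
      exact mem_filter.2 ⟨mem_univ _, hU2⟩
    · intro U _ U' _ hne
      rw [Function.onFun, disjoint_left]
      intro T hT hT'
      exact hne (hinj _ _ ((mem_filter.1 hT).2.symm.trans (mem_filter.1 hT').2))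
  rw [h1]
  have h2 : ∀ U ∈ Q, av (fun x => pr (cls C univ (U.image s)) F x * φ x) ^ 2
      ≤ B ^ 2 * nn ρ (pr (cls C univ (U.image s)) F) := by
    intro U _
    obtain ⟨G, hG⟩ : ∃ G : (I → Bool) → ℝ, G = pr (cls C univ (U.image s)) F := ⟨_, rfl⟩
    rw [← hG]
    have h3 : |av fun x => G x * φ x| ≤ B * av fun x => |G x| := by
      have hcard : (0 : ℝ) < Fintype.card (I → Bool) := by exact_mod_cast Fintype.card_pos
      rw [← av_mul_left]
      unfold av
      rw [abs_div, abs_of_pos hcard]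
      refine div_le_div_of_nonneg_right ((abs_sum_le_sum_abs _ _).trans
        (sum_le_sum fun x _ => ?_)) hcard.le
      rw [abs_mul, mul_comm]
      exact mul_le_mul_of_nonneg_right (hφ x) (abs_nonneg _)
    have h4 := sq_av_abs_le h0 G
    calc (av fun x => G x * φ x) ^ 2 = |av fun x => G x * φ x| ^ 2 := (sq_abs _).symm
      _ ≤ (B * av fun x => |G x|) ^ 2 := pow_le_pow_left₀ (abs_nonneg _) h3 2
      _ = B ^ 2 * (av fun x => |G x|) ^ 2 := by ring
      _ ≤ _ := mul_le_mul_of_nonneg_left h4 (by positivity)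
  have h3 : (∑ U ∈ Q, av (fun x => pr (cls C univ (U.image s)) F x * φ x)) ^ 2
      ≤ Q.card * ∑ U ∈ Q, av (fun x => pr (cls C univ (U.image s)) F x * φ x) ^ 2 :=
    sq_sum_le_card_mul_sum_sq
  refine h3.trans ?_
  have h4 : (Q.card : ℝ) ≤ 2 ^ k := by
    have h5 : Q.card ≤ (univ : Finset (Finset (Fin k))).card := card_le_card (subset_univ _)
    rw [card_univ, Fintype.card_finset, Fintype.card_fin] at h5
    exact_mod_cast h5
  have h5 := sum_le_sum h2
  rw [← mul_sum] at h5
  have h6 : 0 ≤ ∑ U ∈ Q, av (fun x => pr (cls C univ (U.image s)) F x * φ x) ^ 2 :=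
    sum_nonneg fun _ _ => sq_nonneg _
  calc _ ≤ 2 ^ k * (B ^ 2 * ∑ U ∈ Q, nn ρ (pr (cls C univ (U.image s)) F)) :=
        mul_le_mul h4 h5 h6 (by positivity)
    _ = _ := by ring

/-- The pairings of a function with a family of kernels, one for every place of the relevant
columns. -/
theorem sum_pairing (C : Fin m → Finset I) {ρ B : ℝ} (h0 : 0 < ρ) (h1 : ρ ≤ 1)
    (hM : 2 ≤ ρ * (m / k : ℕ)) {F : (I → Bool) → ℝ}
    (φ : (Fin k → Fin (m / k)) → (I → Bool) → ℝ) (hφ : ∀ κ x, |φ κ x| ≤ B) (c : ℕ)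
    (hsupp : ∀ κ T, fI (φ κ) T ≠ 0 →
      ∃ U : Finset (Fin k), c + 1 ≤ U.card ∧ tc C T = U.image (Pool.Agent.W964.Wd.pk κ)) :
    ∑ κ, (av fun x => F x * φ κ x) ^ 2 ≤ B ^ 2 * 2 ^ k *
      (2 * ((m / k : ℕ) : ℝ) ^ k * (1 / (ρ * (m / k : ℕ))) ^ (c + 1) * nn ρ F) := by
  classical
  have hMp : (0 : ℝ) < (m / k : ℕ) := by
    rcases Nat.eq_zero_or_pos (m / k) with h | h
    · rw [h] at hM; norm_num at hM
    · exact_mod_cast h
  obtain ⟨a, ha⟩ : ∃ a : Finset (Fin m) → ℝ, a = fun S => nn ρ (pr (cls C univ S) F) := ⟨_, rfl⟩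
  have ha0 : ∀ S, 0 ≤ a S := fun S => by rw [ha]; exact nn_nonneg _ _
  obtain ⟨W, hW⟩ : ∃ W : ℝ, W = nn ρ F := ⟨_, rfl⟩
  have hW0 : 0 ≤ W := by rw [hW]; exact nn_nonneg _ _
  have hlev : ∀ t : ℕ, ∑ S ∈ powersetCard t (univ : Finset (Fin m)), a S ≤ (1 / ρ) ^ t * W := by
    intro t
    have h2 := sum_level C h0.le h1 F univ
    rw [← hW] at h2
    have h3 : ∑ S ∈ powersetCard t (univ : Finset (Fin m)), ρ ^ t * a S
        ≤ ∑ S ∈ (univ : Finset (Fin m)).powerset, ρ ^ S.card * nn ρ (pr (cls C univ S) F) := by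
      have h4 : ∑ S ∈ powersetCard t (univ : Finset (Fin m)), ρ ^ t * a S
          = ∑ S ∈ powersetCard t (univ : Finset (Fin m)),
            ρ ^ S.card * nn ρ (pr (cls C univ S) F) := by
        refine sum_congr rfl fun S hS => ?_
        rw [(mem_powersetCard.1 hS).2, ha]
      rw [h4]
      refine sum_le_sum_of_subset_of_nonneg ?_ fun S _ _ =>
        mul_nonneg (pow_nonneg h0.le _) (nn_nonneg _ _)
      intro S hS
      exact mem_powerset.2 (mem_powersetCard.1 hS).1
    rw [← mul_sum] at h3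
    have h5 := h3.trans h2
    rw [one_div, inv_pow, inv_mul_eq_div, le_div_iff₀ (by positivity), mul_comm]
    exact h5
  have hsum : ∑ κ : Fin k → Fin (m / k), ∑ U ∈ univ.filter (fun U : Finset (Fin k) => c + 1 ≤ U.card),
        a (U.image (Pool.Agent.W964.Wd.pk κ))
      ≤ 2 * ((m / k : ℕ) : ℝ) ^ k * (1 / (ρ * (m / k : ℕ))) ^ (c + 1) * W := by
    have e1 : ∀ κ : Fin k → Fin (m / k),
        ∑ U ∈ univ.filter (fun U : Finset (Fin k) => c + 1 ≤ U.card),
          a (U.image (Pool.Agent.W964.Wd.pk κ))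
        = ∑ t ∈ Finset.Icc (c + 1) k, ∑ U ∈ powersetCard t (univ : Finset (Fin k)),
          a (U.image (Pool.Agent.W964.Wd.pk κ)) := by
      intro κ
      have hmaps : ∀ T ∈ univ.filter (fun T : Finset (Fin k) => c + 1 ≤ T.card),
          T.card ∈ Finset.Icc (c + 1) k := by
        intro T hT
        rw [Finset.mem_Icc]
        refine ⟨(mem_filter.1 hT).2, ?_⟩
        have := card_le_univ T
        rwa [Fintype.card_fin] at this
      rw [← sum_fiberwise_of_maps_to hmaps]
      refine sum_congr rfl fun t ht => ?_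
      refine sum_congr ?_ fun _ _ => rfl
      ext T
      rw [Finset.mem_Icc] at ht
      simp only [mem_filter, mem_univ, true_and, mem_powersetCard, subset_univ]
      constructor
      · rintro ⟨_, h⟩; exact h
      · intro h; exact ⟨by omega, h⟩
    rw [sum_congr rfl fun κ _ => e1 κ, sum_comm]
    calc ∑ t ∈ Finset.Icc (c + 1) k, ∑ κ : Fin k → Fin (m / k),
          ∑ T ∈ powersetCard t (univ : Finset (Fin k)), a (T.image (Pool.Agent.W964.Wd.pk κ))
        ≤ ∑ t ∈ Finset.Icc (c + 1) k, ((m / k : ℕ) : ℝ) ^ k *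
          ((1 / (ρ * (m / k : ℕ))) ^ t * W) := by
          refine sum_le_sum fun t ht => ?_
          rw [Finset.mem_Icc] at ht
          refine (sum_pk_le a ha0 t).trans ?_
          refine (mul_le_mul_of_nonneg_left (hlev t) (by positivity)).trans (le_of_eq ?_)
          have h5 : ((m / k : ℕ) : ℝ) ^ k
              = ((m / k : ℕ) : ℝ) ^ (k - t) * ((m / k : ℕ) : ℝ) ^ t := by
            rw [← pow_add]
            congr 1
            omega
          have h6 : (1 / ρ) ^ t = ((m / k : ℕ) : ℝ) ^ t * (1 / (ρ * (m / k : ℕ))) ^ t := by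
            rw [← mul_pow]
            congr 1
            field_simp
          rw [h5, h6]
          ring
      _ = ((m / k : ℕ) : ℝ) ^ k * W *
            ∑ t ∈ Finset.Icc (c + 1) k, (1 / (ρ * (m / k : ℕ))) ^ t := by
          rw [mul_sum]
          exact sum_congr rfl fun t _ => by ring
      _ ≤ ((m / k : ℕ) : ℝ) ^ k * W * (2 * (1 / (ρ * (m / k : ℕ))) ^ (c + 1)) := by
          refine mul_le_mul_of_nonneg_left (geom_le (by positivity) ?_ _ _) (by positivity)
          exact one_div_le_one_div_of_le (by norm_num) hM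
      _ = _ := by ring
  rw [← hW]
  refine le_trans ?_ (mul_le_mul_of_nonneg_left hsum (by positivity))
  rw [mul_sum]
  refine sum_le_sum fun κ _ => ?_
  have h2 := pairing (F := F) C h0.le (hφ κ) c (Pool.Agent.W964.Wd.pk κ)
    (Pool.Agent.W964.Wd.pk_inj κ) (hsupp κ)
  rw [ha]
  exact h2

end columns

end Pool.Agent.Q126.BL
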