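import Pool.Agent.TH661.LPX.Bon

/-!
The norm with an exponent between one and two: uniform convexity, conditional expectations.
-/

set_option autoImplicit false

namespace Pool.Agent.Q126.BL

open Finset Pool.Agent.TH661.LPX

section

variable {Z : Type*} [Fintype Z]

/-- The square of the norm with the exponent `1 + ρ`. -/
noncomputable def nn (ρ : ℝ) (F : Z → ℝ) : ℝ := (av fun z => |F z| ^ (1 + ρ)) ^ (2 / (1 + ρ))

theorem av_abs_nonneg (ρ : ℝ) (F : Z → ℝ) : 0 ≤ av fun z => |F z| ^ (1 + ρ) :=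
  av_nonneg fun _ => Real.rpow_nonneg (abs_nonneg _) _

theorem nn_nonneg (ρ : ℝ) (F : Z → ℝ) : 0 ≤ nn ρ F := Real.rpow_nonneg (av_abs_nonneg ρ F) _

theorem nn_smul {ρ : ℝ} (h0 : 0 ≤ ρ) (c : ℝ) (F : Z → ℝ) :
    nn ρ (fun z => c * F z) = c ^ 2 * nn ρ F := by
  unfold nn
  have h1 : ∀ z, |c * F z| ^ (1 + ρ) = |c| ^ (1 + ρ) * |F z| ^ (1 + ρ) := fun z => by
    rw [abs_mul, Real.mul_rpow (abs_nonneg _) (abs_nonneg _)]
  rw [av_congr h1, av_mul_left, Real.mul_rpow (Real.rpow_nonneg (abs_nonneg _) _)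
    (av_abs_nonneg ρ F), ← Real.rpow_mul (abs_nonneg _)]
  have h2 : (1 + ρ) * (2 / (1 + ρ)) = ((2 : ℕ) : ℝ) := by
    have : 1 + ρ ≠ 0 := by linarith
    field_simp
    norm_num
  rw [h2, Real.rpow_natCast, sq_abs]

/-- The two-point inequality. -/
theorem two_point {ρ : ℝ} (h0 : 0 ≤ ρ) (h1 : ρ ≤ 1) (a b : ℝ) :
    a ^ 2 + ρ * b ^ 2 ≤ ((|a + b| ^ (1 + ρ) + |a - b| ^ (1 + ρ)) / 2) ^ (2 / (1 + ρ)) := by
  have h := fI_abs_weight_le (I := Unit) h0 h1 (fun x => a + b * sg (x ()))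
  have hav : ∀ G : Bool → ℝ, av (fun x : Unit → Bool => G (x ())) = (G true + G false) / 2 := by
    intro G
    have h2 := av_equiv (Equiv.funUnique Unit Bool) G
    have h3 : av (fun x : Unit → Bool => G (x ())) = av G := h2
    rw [h3]
    unfold av
    rw [Fintype.sum_bool, Fintype.card_bool]
    norm_num
  have hr : av (fun x : Unit → Bool => |a + b * sg (x ())| ^ (1 + ρ))
      = (|a + b| ^ (1 + ρ) + |a - b| ^ (1 + ρ)) / 2 := by
    rw [hav (fun v => |a + b * sg v| ^ (1 + ρ))]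
    have e1 : a + b * sg true = a - b := by simp [sg]; ring
    have e2 : a + b * sg false = a + b := by simp [sg]
    rw [e1, e2]
    ring
  rw [hr] at h
  refine le_trans ?_ h
  have hsub : ({∅, {()}} : Finset (Finset Unit)) ⊆ univ := subset_univ _
  refine le_trans ?_ (sum_le_sum_of_subset_of_nonneg hsub fun T _ _ => by positivity)
  rw [sum_pair (by decide)]
  have e1 : fI (fun x : Unit → Bool => a + b * sg (x ())) ∅ = a := by
    unfold fI
    simp only [prod_empty, mul_one]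
    rw [hav (fun v => a + b * sg v)]
    simp [sg]
    ring
  have e2 : fI (fun x : Unit → Bool => a + b * sg (x ())) {()} = b := by
    unfold fI
    simp only [prod_singleton]
    rw [hav (fun v => (a + b * sg v) * sg v)]
    simp [sg]
  rw [e1, e2]
  simp

/-- The reverse Minkowski inequality. -/
theorem rev_mink {r : ℝ} (h0 : 0 < r) (h1 : r ≤ 1) {U V : Z → ℝ} (hU : ∀ z, 0 ≤ U z)
    (hV : ∀ z, 0 ≤ V z) :
    (av fun z => U z ^ r) ^ (1 / r) + (av fun z => V z ^ r) ^ (1 / r)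
      ≤ (av fun z => (U z + V z) ^ r) ^ (1 / r) := by
  have hUn : 0 ≤ av fun z => U z ^ r := av_nonneg fun z => Real.rpow_nonneg (hU z) _
  have hVn : 0 ≤ av fun z => V z ^ r := av_nonneg fun z => Real.rpow_nonneg (hV z) _
  obtain ⟨α, hα⟩ : ∃ α : ℝ, α = (av fun z => U z ^ r) ^ (1 / r) := ⟨_, rfl⟩
  obtain ⟨β, hβ⟩ : ∃ β : ℝ, β = (av fun z => V z ^ r) ^ (1 / r) := ⟨_, rfl⟩
  have hα0 : 0 ≤ α := by rw [hα]; exact Real.rpow_nonneg hUn _
  have hβ0 : 0 ≤ β := by rw [hβ]; exact Real.rpow_nonneg hVn _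
  have hαr : α ^ r = av fun z => U z ^ r := by
    rw [hα, ← Real.rpow_mul hUn, one_div_mul_cancel h0.ne', Real.rpow_one]
  have hβr : β ^ r = av fun z => V z ^ r := by
    rw [hβ, ← Real.rpow_mul hVn, one_div_mul_cancel h0.ne', Real.rpow_one]
  rw [← hα, ← hβ]
  rcases hα0.eq_or_lt with hz | hαp
  · rw [← hz, zero_add, hβ]
    refine Real.rpow_le_rpow hVn (av_mono fun z => ?_) (by positivity)
    exact Real.rpow_le_rpow (hV z) (by linarith [hU z]) h0.le
  rcases hβ0.eq_or_lt with hz | hβp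
  · rw [← hz, add_zero, hα]
    refine Real.rpow_le_rpow hUn (av_mono fun z => ?_) (by positivity)
    exact Real.rpow_le_rpow (hU z) (by linarith [hV z]) h0.le
  obtain ⟨s, hs⟩ : ∃ s : ℝ, s = α + β := ⟨_, rfl⟩
  have hsp : 0 < s := by rw [hs]; linarith
  rw [← hs]
  have key : s ^ r ≤ av fun z => (U z + V z) ^ r := by
    have h2 : ∀ z, s ^ r * (α / s * (U z ^ r / α ^ r) + β / s * (V z ^ r / β ^ r))
        ≤ (U z + V z) ^ r := by
      intro z
      have h3 := (Real.concaveOn_rpow h0.le h1).2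
        (Set.mem_Ici.2 (div_nonneg (hU z) hα0)) (Set.mem_Ici.2 (div_nonneg (hV z) hβ0))
        (by positivity : 0 ≤ α / s) (by positivity : 0 ≤ β / s)
        (by rw [← add_div, ← hs, div_self hsp.ne'])
      simp only [smul_eq_mul] at h3
      rw [Real.div_rpow (hU z) hα0, Real.div_rpow (hV z) hβ0] at h3
      have h4 : U z + V z = s * (α / s * (U z / α) + β / s * (V z / β)) := by
        field_simp
      rw [h4, Real.mul_rpow hsp.le (by
        have := hU z
        have := hV z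
        positivity)]
      exact mul_le_mul_of_nonneg_left h3 (Real.rpow_nonneg hsp.le _)
    refine le_trans (le_of_eq ?_) (av_mono h2)
    rw [av_mul_left, av_add, av_mul_left, av_mul_left]
    have h3 : av (fun z => U z ^ r / α ^ r) = 1 := by
      have : ∀ z, U z ^ r / α ^ r = U z ^ r * (α ^ r)⁻¹ := fun z => div_eq_mul_inv _ _
      rw [av_congr this, av_mul_right, ← hαr]
      exact mul_inv_cancel₀ (Real.rpow_pos_of_pos hαp _).ne'
    have h4 : av (fun z => V z ^ r / β ^ r) = 1 := by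
      have : ∀ z, V z ^ r / β ^ r = V z ^ r * (β ^ r)⁻¹ := fun z => div_eq_mul_inv _ _
      rw [av_congr this, av_mul_right, ← hβr]
      exact mul_inv_cancel₀ (Real.rpow_pos_of_pos hβp _).ne'
    rw [h3, h4, mul_one, mul_one, ← add_div, ← hs, div_self hsp.ne', mul_one]
  calc s = (s ^ r) ^ (1 / r) := by
        rw [← Real.rpow_mul hsp.le, mul_one_div_cancel h0.ne', Real.rpow_one]
    _ ≤ _ := Real.rpow_le_rpow (Real.rpow_nonneg hsp.le _) key (by positivity)

/-- Uniform convexity. -/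
theorem convex_ineq {ρ : ℝ} (h0 : 0 ≤ ρ) (h1 : ρ ≤ 1) (F G : Z → ℝ) :
    nn ρ F + ρ * nn ρ G
      ≤ (nn ρ (fun z => F z + G z) + nn ρ (fun z => F z - G z)) / 2 := by
  have hp : 0 < 1 + ρ := by linarith
  have hr0 : 0 < (1 + ρ) / 2 := by linarith
  have hr1 : (1 + ρ) / 2 ≤ 1 := by linarith
  have hr : 1 / ((1 + ρ) / 2) = 2 / (1 + ρ) := by field_simp
  have hsq : ∀ a : ℝ, (a ^ 2) ^ ((1 + ρ) / 2) = |a| ^ (1 + ρ) := by
    intro a
    rw [← sq_abs, ← Real.rpow_natCast |a| 2, ← Real.rpow_mul (abs_nonneg _)]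
    congr 1
    push_cast
    ring
  -- the left side
  have hl : nn ρ F + ρ * nn ρ G ≤ (av fun z => (F z ^ 2 + ρ * G z ^ 2) ^ ((1 + ρ) / 2))
      ^ (2 / (1 + ρ)) := by
    have h2 := rev_mink hr0 hr1 (U := fun z => F z ^ 2) (V := fun z => ρ * G z ^ 2)
      (fun z => by positivity) (fun z => by positivity)
    rw [hr] at h2
    refine le_trans (le_of_eq ?_) h2
    congr 1
    · unfold nn
      congr 1
      exact av_congr fun z => (hsq _).symm
    · unfold nn
      have h3 : ∀ z, (ρ * G z ^ 2) ^ ((1 + ρ) / 2) = ρ ^ ((1 + ρ) / 2) * |G z| ^ (1 + ρ) := by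
        intro z
        rw [Real.mul_rpow h0 (by positivity), hsq]
      rw [av_congr h3, av_mul_left, Real.mul_rpow (Real.rpow_nonneg h0 _) (av_abs_nonneg ρ G),
        ← Real.rpow_mul h0]
      have h4 : (1 + ρ) / 2 * (2 / (1 + ρ)) = 1 := by field_simp
      rw [h4, Real.rpow_one]
  refine hl.trans ?_
  -- pointwise
  have hpt : ∀ z, (F z ^ 2 + ρ * G z ^ 2) ^ ((1 + ρ) / 2)
      ≤ (|F z + G z| ^ (1 + ρ) + |F z - G z| ^ (1 + ρ)) / 2 := by
    intro z
    have h2 := two_point h0 h1 (F z) (G z)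
    have hW : 0 ≤ (|F z + G z| ^ (1 + ρ) + |F z - G z| ^ (1 + ρ)) / 2 := by
      have := Real.rpow_nonneg (abs_nonneg (F z + G z)) (1 + ρ)
      have := Real.rpow_nonneg (abs_nonneg (F z - G z)) (1 + ρ)
      positivity
    have h3 := Real.rpow_le_rpow (by positivity) h2 hr0.le
    rw [← Real.rpow_mul hW] at h3
    have h4 : 2 / (1 + ρ) * ((1 + ρ) / 2) = 1 := by field_simp
    rwa [h4, Real.rpow_one] at h3
  have h2 : (av fun z => (F z ^ 2 + ρ * G z ^ 2) ^ ((1 + ρ) / 2))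
      ≤ (av (fun z => |F z + G z| ^ (1 + ρ)) + av (fun z => |F z - G z| ^ (1 + ρ))) / 2 := by
    refine (av_mono hpt).trans (le_of_eq ?_)
    have h3 : ∀ z, (|F z + G z| ^ (1 + ρ) + |F z - G z| ^ (1 + ρ)) / 2
        = (|F z + G z| ^ (1 + ρ) + |F z - G z| ^ (1 + ρ)) * (1 / 2) := fun z => by ring
    rw [av_congr h3, av_mul_right, av_add]
    ring
  have hX := av_abs_nonneg ρ (fun z => F z + G z)
  have hY := av_abs_nonneg ρ (fun z => F z - G z)
  have hL : 0 ≤ av fun z => (F z ^ 2 + ρ * G z ^ 2) ^ ((1 + ρ) / 2) :=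
    av_nonneg fun z => Real.rpow_nonneg (by positivity) _
  refine (Real.rpow_le_rpow hL h2 (by positivity)).trans ?_
  unfold nn
  have hconv := (convexOn_rpow (p := 2 / (1 + ρ)) (by rw [le_div_iff₀ hp]; linarith)).2
    (Set.mem_Ici.2 hX) (Set.mem_Ici.2 hY) (by norm_num : (0 : ℝ) ≤ 1 / 2)
    (by norm_num : (0 : ℝ) ≤ 1 / 2) (by norm_num)
  simp only [smul_eq_mul] at hconv
  refine le_trans (le_of_eq ?_) (hconv.trans (le_of_eq ?_))
  · congr 1; ring
  · ring

/-- Conditional expectations. -/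
theorem one_step {ρ : ℝ} (h0 : 0 ≤ ρ) (h1 : ρ ≤ 1) (P : (Z → ℝ) → (Z → ℝ))
    (hlin : ∀ (c : ℝ) (F G : Z → ℝ), P (fun z => F z + c * G z) = fun z => P F z + c * P G z)
    (hid : ∀ F, P (P F) = P F) (hcon : ∀ F, nn ρ (P F) ≤ nn ρ F) (F : Z → ℝ) :
    nn ρ (P F) + ρ * nn ρ (fun z => F z - P F z) ≤ nn ρ F := by
  obtain ⟨f, hf⟩ : ∃ f : Z → ℝ, f = P F := ⟨_, rfl⟩
  obtain ⟨d, hd⟩ : ∃ d : Z → ℝ, d = fun z => F z - P F z := ⟨_, rfl⟩
  have hPd : P d = fun _ => 0 := by
    have h2 := hlin (-1) F (P F)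
    rw [hid] at h2
    have h3 : d = fun z => F z + (-1) * P F z := by rw [hd]; funext z; ring
    rw [h3, h2]
    funext z
    ring
  have hPf : P f = f := by rw [hf, hid]
  -- the norm on a line
  have hmin : ∀ l : ℝ, nn ρ f ≤ nn ρ fun z => f z + l * d z := by
    intro l
    refine le_trans (le_of_eq ?_) (hcon _)
    rw [hlin, hPd, hPf]
    congr 1
    funext z
    ring
  have hmid : ∀ l : ℝ, nn ρ (fun z => f z + l / 2 * d z) + ρ * (l ^ 2 / 4) * nn ρ d
      ≤ (nn ρ (fun z => f z + l * d z) + nn ρ f) / 2 := by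
    intro l
    have h2 := convex_ineq h0 h1 (fun z => f z + l / 2 * d z) (fun z => l / 2 * d z)
    rw [nn_smul h0] at h2
    have e1 : (fun z => f z + l / 2 * d z + l / 2 * d z) = fun z => f z + l * d z := by
      funext z; ring
    have e2 : (fun z => f z + l / 2 * d z - l / 2 * d z) = f := by
      funext z; ring
    rw [e1, e2] at h2
    refine le_trans (le_of_eq ?_) h2
    ring
  have hiter : ∀ n : ℕ, 2 ^ n * (nn ρ (fun z => f z + (1 / 2) ^ n * d z) - nn ρ f)
      + ρ * (1 - (1 / 2) ^ n) * nn ρ d ≤ nn ρ (fun z => f z + 1 * d z) - nn ρ f := by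
    intro n
    induction n with
    | zero => simp
    | succ n ih =>
      refine le_trans ?_ ih
      have h2 := hmid ((1 / 2) ^ n)
      have e1 : (1 / 2 : ℝ) ^ n / 2 = (1 / 2) ^ (n + 1) := by rw [pow_succ]; ring
      rw [e1] at h2
      obtain ⟨X, hX⟩ : ∃ X : ℝ, X = nn ρ (fun z => f z + (1 / 2) ^ (n + 1) * d z) := ⟨_, rfl⟩
      obtain ⟨Y, hY⟩ : ∃ Y : ℝ, Y = nn ρ (fun z => f z + (1 / 2) ^ n * d z) := ⟨_, rfl⟩
      rw [← hX, ← hY] at h2
      rw [← hX, ← hY]
      have h3 := mul_le_mul_of_nonneg_left h2 (by positivity : (0 : ℝ) ≤ 2 ^ (n + 1))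
      have e2 : (2 : ℝ) ^ (n + 1) * (ρ * (((1 / 2) ^ n) ^ 2 / 4) * nn ρ d)
          = ρ * (1 / 2) ^ (n + 1) * nn ρ d := by
        have e3 : (2 : ℝ) ^ n * (1 / 2) ^ n = 1 := by rw [← mul_pow]; norm_num
        calc (2 : ℝ) ^ (n + 1) * (ρ * (((1 / 2) ^ n) ^ 2 / 4) * nn ρ d)
            = (2 ^ n * (1 / 2) ^ n) * (ρ * ((1 / 2) ^ n / 2) * nn ρ d) := by
              rw [pow_succ]; ring
          _ = _ := by rw [e3, pow_succ]; ring
      have e4 : (2 : ℝ) ^ (n + 1) * (X + ρ * (((1 / 2) ^ n) ^ 2 / 4) * nn ρ d)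
          = 2 ^ (n + 1) * X + ρ * (1 / 2) ^ (n + 1) * nn ρ d := by
        rw [mul_add, e2]
      rw [e4] at h3
      have e5 : (2 : ℝ) ^ (n + 1) * ((Y + nn ρ f) / 2) = 2 ^ n * (Y + nn ρ f) := by
        rw [pow_succ]; ring
      rw [e5] at h3
      have e6 : (2 : ℝ) ^ (n + 1) * nn ρ f = 2 * (2 ^ n * nn ρ f) := by rw [pow_succ]; ring
      have e7 : (1 / 2 : ℝ) ^ (n + 1) = (1 / 2) ^ n / 2 := e1.symm
      have e8 : ρ * (1 - (1 / 2) ^ (n + 1)) * nn ρ d
          = ρ * (1 - (1 / 2) ^ n) * nn ρ d + ρ * (1 / 2) ^ (n + 1) * nn ρ d := by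
        rw [e7]; ring
      rw [mul_sub ((2 : ℝ) ^ (n + 1)), mul_sub ((2 : ℝ) ^ n), e6, e8]
      linarith
  have hfin : ∀ n : ℕ, ρ * (1 - (1 / 2) ^ n) * nn ρ d ≤ nn ρ (fun z => f z + 1 * d z) - nn ρ f := by
    intro n
    have h2 := hiter n
    have h3 := hmin ((1 / 2) ^ n)
    have h4 : 0 ≤ 2 ^ n * (nn ρ (fun z => f z + (1 / 2) ^ n * d z) - nn ρ f) :=
      mul_nonneg (by positivity) (by linarith)
    linarith
  have hlim : Filter.Tendsto (fun n : ℕ => ρ * (1 - (1 / 2 : ℝ) ^ n) * nn ρ d) Filter.atTop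
      (nhds (ρ * (1 - 0) * nn ρ d)) := by
    refine Filter.Tendsto.mul_const _ (Filter.Tendsto.const_mul _ (Filter.Tendsto.const_sub _ ?_))
    exact tendsto_pow_atTop_nhds_zero_of_lt_one (by norm_num) (by norm_num)
  have h2 := le_of_tendsto' hlim hfin
  have e1 : (fun z => f z + 1 * d z) = F := by
    funext z
    rw [hf, hd]
    ring
  rw [e1] at h2
  rw [← hd, ← hf]
  linarith

end

section cube

variable {I : Type*} [Fintype I] [DecidableEq I]

/-- The average over the bits in `C`. -/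
noncomputable def avc (C : Finset I) (F : (I → Bool) → ℝ) (x : I → Bool) : ℝ :=
  av fun w : I → Bool => F (mix C w x)

theorem avc_lin (C : Finset I) (c : ℝ) (F G : (I → Bool) → ℝ) :
    avc C (fun z => F z + c * G z) = fun z => avc C F z + c * avc C G z := by
  funext z
  unfold avc
  rw [av_add, av_mul_left]

theorem avc_idem (C : Finset I) (F : (I → Bool) → ℝ) : avc C (avc C F) = avc C F := by
  funext x
  unfold avc
  have h1 : ∀ w : I → Bool, (av fun w' : I → Bool => F (mix C w' (mix C w x)))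
      = av fun w' : I → Bool => F (mix C w' x) := by
    intro w
    refine av_congr fun w' => ?_
    congr 1
    funext i
    by_cases h : i ∈ C <;> simp [mix, h]
  rw [av_congr h1, av_const]

/-- Averages over bits are contractions. -/
theorem avc_contr {ρ : ℝ} (h0 : 0 ≤ ρ) (C : Finset I) (F : (I → Bool) → ℝ) :
    nn ρ (avc C F) ≤ nn ρ F := by
  unfold nn
  refine Real.rpow_le_rpow (av_abs_nonneg ρ _) ?_ (by positivity)
  have hJ : ∀ x, |avc C F x| ^ (1 + ρ) ≤ av fun w : I → Bool => |F (mix C w x)| ^ (1 + ρ) := by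
    intro x
    have hcard : (0 : ℝ) < Fintype.card (I → Bool) := by exact_mod_cast Fintype.card_pos
    have h1 : |avc C F x| ≤ av fun w : I → Bool => |F (mix C w x)| := by
      unfold avc av
      rw [abs_div, abs_of_pos hcard]
      exact div_le_div_of_nonneg_right (abs_sum_le_sum_abs _ _) hcard.le
    have h2 := Real.rpow_arith_mean_le_arith_mean_rpow (univ : Finset (I → Bool))
      (fun _ => 1 / (Fintype.card (I → Bool) : ℝ)) (fun w => |F (mix C w x)|)
      (fun _ _ => by positivity)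
      (by rw [sum_const, card_univ, nsmul_eq_mul]; field_simp)
      (fun _ _ => abs_nonneg _) (p := 1 + ρ) (by linarith)
    rw [← mul_sum, ← mul_sum] at h2
    have h3 := Real.rpow_le_rpow (abs_nonneg _) h1 (by linarith : 0 ≤ 1 + ρ)
    refine h3.trans ?_
    unfold av
    rw [div_eq_mul_one_div, div_eq_mul_one_div (∑ _, _), mul_comm, mul_comm (∑ _, _) (1 / _)]
    exact h2
  refine (av_mono hJ).trans (le_of_eq ?_)
  rw [av_comm]
  exact (av_mix C fun x => |F x| ^ (1 + ρ)).symm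

/-- The character. -/
noncomputable def ch (T : Finset I) (x : I → Bool) : ℝ := ∏ p ∈ T, sg (x p)

theorem av_sgb : av (fun b : Bool => sg b) = 0 := av_sg

theorem avc_ch (C T : Finset I) (x : I → Bool) :
    avc C (ch T) x = if Disjoint T C then ch T x else 0 := by
  unfold avc ch
  have h1 : ∀ w : I → Bool, ∏ p ∈ T, sg (mix C w x p)
      = ∏ p ∈ T, (fun (p : I) (b : Bool) => if p ∈ C then sg b else sg (x p)) p (w p) := by
    intro w
    refine prod_congr rfl fun p _ => ?_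
    by_cases h : p ∈ C <;> simp [mix, h]
  rw [av_congr h1, av_pi_subset T (fun (p : I) (b : Bool) => if p ∈ C then sg b else sg (x p))]
  have h2 : ∀ p ∈ T, av (fun b : Bool => if p ∈ C then sg b else sg (x p))
      = if p ∈ C then 0 else sg (x p) := by
    intro p _
    by_cases h : p ∈ C
    · simp only [h, if_true]
      exact av_sg
    · simp only [h, if_false]
      exact av_const _
  rw [prod_congr rfl h2]
  split_ifs with h
  · refine prod_congr rfl fun p hp => ?_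
    rw [if_neg (disjoint_left.1 h hp)]
  · rw [not_disjoint_iff] at h
    obtain ⟨p, hp, hpC⟩ := h
    exact prod_eq_zero hp (if_pos hpC)

/-- The part of `F` with the characters in `Q`. -/
noncomputable def pr (Q : Finset (Finset I)) (F : (I → Bool) → ℝ) (x : I → Bool) : ℝ :=
  ∑ T ∈ Q, fI F T * ch T x

theorem avc_pr (C : Finset I) (Q : Finset (Finset I)) (F : (I → Bool) → ℝ) :
    avc C (pr Q F) = pr (Q.filter fun T => Disjoint T C) F := by
  funext x
  have h1 : avc C (pr Q F) x = ∑ T ∈ Q, fI F T * avc C (ch T) x := by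
    unfold avc pr
    rw [av_sum]
    refine sum_congr rfl fun T _ => ?_
    rw [av_mul_left]
  rw [h1]
  unfold pr
  rw [sum_filter]
  refine sum_congr rfl fun T _ => ?_
  rw [avc_ch]
  split_ifs <;> simp

theorem sub_avc_pr (C : Finset I) (Q : Finset (Finset I)) (F : (I → Bool) → ℝ) :
    (fun x => pr Q F x - avc C (pr Q F) x) = pr (Q.filter fun T => ¬ Disjoint T C) F := by
  funext x
  rw [avc_pr]
  unfold pr
  rw [← sum_filter_add_sum_filter_not Q (fun T => Disjoint T C)]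
  ring

end cube

end Pool.Agent.Q126.BL
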