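import Pool.Agent.Q126.BL.Bat
import Pool.Agent.Q126.BL.Tilt
import Pool.Agent.Q126.BL.Defs
import Pool.Agent.Y636.CL.JMain

/-!
The lower bound for learners that get the examples in batches.
-/

set_option autoImplicit false

namespace Pool.Agent.Q126.BL

open Finset Pool.Agent.W964.Wd Pool.Agent.Y636.CL

variable {m k t : ℕ}

/-- The success probability is a sum over the leaves of the protocol. -/
theorem batchProb_eq {N : ℕ} (T : Prot N (Fin t → Ex m) (Finset (Fin m)))
    (f : Hy m) (E : Finset (Fin m) → Prop) (good : Finset (Fin m) → ℝ)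
    (hg : ∀ h, E h → good h = 1) (hg' : ∀ h, ¬ E h → good h = 0) :
    batchProb T.run f E
      = leaf (fun h U => good h * pm (fun e => bw m t e * (1 + ll f e)) U) T fun _ => univ := by
  classical
  rw [leaf_run]
  unfold batchProb
  rw [← sum_boole, sum_div]
  refine sum_of_injOn (fun X i j => (X i j, f (X i j))) ?_ ?_ ?_ ?_
  · intro X _ Y _ hXY
    funext i j
    have := congrFun (congrFun hXY i) j
    exact (Prod.ext_iff.1 this).1
  · intro X _
    simp
  · intro e _ he
    obtain ⟨i, j, hij⟩ : ∃ i j, (e i j).2 ≠ f (e i j).1 := by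
      by_contra hcon
      push Not at hcon
      refine he ⟨fun i j => (e i j).1, by simp, ?_⟩
      funext i j
      exact Prod.ext rfl (hcon i j).symm
    have h1 : pf f (e i j) = -1 := by
      unfold pf
      revert hij
      unfold Pool.Agent.TH661.LPX.sg
      cases (e i j).2 <;> cases f (e i j).1 <;> simp
    have h2 : 1 + ll f (e i) = 0 := by
      unfold ll
      rw [prod_eq_zero (mem_univ j) (by rw [h1]; ring)]
      ring
    rw [prod_eq_zero (mem_univ i) (by rw [h2, mul_zero]), zero_mul]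
  · intro X _
    have h1 : ∀ i, bw m t (fun j => (X i j, f (X i j))) *
        (1 + ll f fun j => (X i j, f (X i j))) = ((2 ^ m) ^ t)⁻¹ := by
      intro i
      have h2 : ∀ j, 1 + pf f (X i j, f (X i j)) = 2 := by
        intro j
        have : pf f (X i j, f (X i j)) = 1 := by
          unfold pf
          exact Pool.Agent.TH661.LPX.sg_mul_self _
        rw [this]
        norm_num
      have h3 : 1 + ll f (fun j => (X i j, f (X i j))) = 2 ^ t := by
        unfold ll
        rw [prod_congr rfl fun j _ => h2 j, prod_const, card_univ, Fintype.card_fin]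
        ring
      rw [h3]
      unfold bw
      rw [mul_pow]
      have h4 : ((2 : ℝ) ^ m) ^ t ≠ 0 := by positivity
      have h5 : (2 : ℝ) ^ t ≠ 0 := by positivity
      field_simp
    rw [prod_congr rfl fun i _ => h1 i, prod_const, card_univ, Fintype.card_fin]
    by_cases hE : E (T.run fun i j => (X i j, f (X i j)))
    · rw [if_pos hE, hg _ hE]
      rw [inv_pow, div_eq_inv_mul]
    · rw [if_neg hE, hg' _ hE]
      simp

theorem ms_bw_univ : ms (bw m t) univ = 1 := by
  rw [ms_bw_one]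
  simp only [mem_univ, if_true]
  exact Pool.Agent.TH661.LPX.av_const _

theorem bt_ll_univ (g : (Fin k → Bool) → Bool) (s : Fin k → Fin m) :
    bt (bw m t) (ll (junta g s)) univ = 0 := by
  unfold bt
  rw [ms_bw]
  have h1 : ∀ z : Bi m t → Bool, (if tb m t z ∈ (univ : Finset (Fin t → Ex m)) then (1 : ℝ) else 0) *
      ll (junta g s) (tb m t z)
      = (∏ i, G1 (junta g s) fun o => z (i, o)) - 1 := by
    intro z
    rw [if_pos (mem_univ _), one_mul, ll_tb]
  rw [Pool.Agent.TH661.LPX.av_congr h1, Pool.Agent.TH661.LPX.av_sub,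
    Pool.Agent.TH661.LPX.av_const, ← fI_empty, fI_prod]
  have h2 : ∀ i : Fin t, Pool.Agent.TH661.LPX.fI (G1 (junta g s))
      (univ.filter fun o => (i, o) ∈ (∅ : Finset (Bi m t))) = 1 := by
    intro i
    have : (univ.filter fun o : Option (Fin m) => (i, o) ∈ (∅ : Finset (Bi m t))) = ∅ := by
      ext o; simp
    rw [this, av_G1 g s]
  rw [prod_congr rfl fun i _ => h2 i]
  simp

/-- The sum over the places of the squared biases of one side of a rectangle. -/
theorem sum_bt_ll_le {N c : ℕ} {g : (Fin k → Bool) → Bool} (hg : Balanced c g) {ρ : ℝ}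
    (h0 : 0 < ρ) (h1 : ρ ≤ 1) (hM : 2 ≤ ρ * (m / k : ℕ)) (U : Fin N → Finset (Fin t → Ex m))
    (j : Fin N) :
    ∑ κ : Fin k → Fin (m / k), pm (bw m t) U * bt (bw m t) (ll (junta g (pk κ))) (U j) ^ 2
      ≤ (2 ^ t) ^ 2 * 2 ^ k * (2 * ((m / k : ℕ) : ℝ) ^ k * (1 / (ρ * (m / k : ℕ))) ^ (c + 1))
        * (rs (bw m t) U j * ms (bw m t) (U j) ^ (2 / (1 + ρ) - 1)) := by
  have hm := ms_nonneg (w := bw m t) bw_nonneg (U j)
  have hR := rs_nonneg (w := bw m t) bw_nonneg U j
  have hMp : (0 : ℝ) < (m / k : ℕ) := by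
    rcases Nat.eq_zero_or_pos (m / k) with h | h
    · rw [h] at hM; norm_num at hM
    · exact_mod_cast h
  rcases hm.eq_or_lt with h | h
  · have : ∀ κ : Fin k → Fin (m / k),
        pm (bw m t) U * bt (bw m t) (ll (junta g (pk κ))) (U j) ^ 2 = 0 := by
      intro κ
      rw [pm_eq _ U j, ← h]
      ring
    rw [sum_congr rfl fun κ _ => this κ, sum_const_zero]
    positivity
  · have hl := batch_level (t := t) hg h0 h1 hM (U j)
    have h2 : ∑ κ : Fin k → Fin (m / k),
          pm (bw m t) U * bt (bw m t) (ll (junta g (pk κ))) (U j) ^ 2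
        = rs (bw m t) U j / ms (bw m t) (U j) * ∑ κ : Fin k → Fin (m / k),
            ms (fun e => bw m t e * ll (junta g (pk κ)) e) (U j) ^ 2 := by
      rw [mul_sum]
      refine sum_congr rfl fun κ _ => ?_
      rw [pm_eq _ U j]
      unfold bt
      field_simp
    rw [h2]
    refine (mul_le_mul_of_nonneg_left hl (by positivity)).trans (le_of_eq ?_)
    rw [Real.rpow_sub h, Real.rpow_one]
    field_simp

open Classical in
/-- The sum of the success probabilities over all places of the relevant variables. -/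
theorem sum_batchProb_le {N b c : ℕ} {g : (Fin k → Bool) → Bool} (hg : Balanced c g)
    (T : Prot N (Fin t → Ex m) (Finset (Fin m))) {ρ : ℝ}
    (h0 : 0 < ρ) (h1 : ρ ≤ 1) (hM : 2 ≤ ρ * (m / k : ℕ)) (hb : ∀ j, T.load j ≤ b) :
    ∑ κ : Fin k → Fin (m / k), batchProb T.run (junta g (pk κ))
        (fun A => A.card ≤ k ∧ 0 < adv (junta g (pk κ)) A)
      ≤ Real.exp 1 * ((k.choose (c + 1) : ℝ) * ((m / k : ℕ) : ℝ) ^ (k - (c + 1)))
        + Real.exp 2 * (3 * (N * ((2 ^ t) ^ 2 * 2 ^ k *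
          (2 * ((m / k : ℕ) : ℝ) ^ k * (1 / (ρ * (m / k : ℕ))) ^ (c + 1))
          * 2 ^ (2 * ρ * b)))) := by
  have hMp : (0 : ℝ) < (m / k : ℕ) := by
    rcases Nat.eq_zero_or_pos (m / k) with h | h
    · rw [h] at hM; norm_num at hM
    · exact_mod_cast h
  let U : Fin N → Finset (Fin t → Ex m) := fun _ => univ
  have hz : ∀ κ : Fin k → Fin (m / k), zz (bw m t) (ll (junta g (pk κ))) U = 0 := fun κ => by
    unfold zz
    exact sum_eq_zero fun i _ => bt_ll_univ g _
  have hpm : pm (bw m t) U = 1 := by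
    unfold pm
    exact prod_eq_one fun i _ => ms_bw_univ
  have hrs : ∀ j, rs (bw m t) U j = 1 := fun j => by
    unfold rs
    exact prod_eq_one fun i _ => ms_bw_univ
  have step1 : ∀ κ : Fin k → Fin (m / k), batchProb T.run (junta g (pk κ))
        (fun A => A.card ≤ k ∧ 0 < adv (junta g (pk κ)) A)
      ≤ Real.exp 1 * leaf (fun A U =>
          (if A.card ≤ k ∧ 0 < adv (junta g (pk κ)) A then (1 : ℝ) else 0) * pm (bw m t) U) T U
        + Real.exp 2 * (3 * ∑ j, leaf (fun _ U =>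
          pm (bw m t) U * bt (bw m t) (ll (junta g (pk κ))) (U j) ^ 2) T U) := by
    intro κ
    rw [batchProb_eq T (junta g (pk κ)) _
      (fun A => if A.card ≤ k ∧ 0 < adv (junta g (pk κ)) A then 1 else 0)
      (fun h hE => if_pos hE) (fun h hE => if_neg hE)]
    have h2 := tilt_le' (w := bw m t) (φ := ll (junta g (pk κ))) bw_nonneg (ll_ge _)
      (fun A => if A.card ≤ k ∧ 0 < adv (junta g (pk κ)) A then 1 else 0)
      (fun h => by split_ifs <;> norm_num) (fun h => by split_ifs <;> norm_num) T U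
      (fun h => by rw [hz] at h; norm_num at h)
    refine h2.trans (le_of_eq ?_)
    congr 2
    exact leaf_vv bw_nonneg T U fun j => bt_ll_univ g _
  refine (sum_le_sum fun κ _ => step1 κ).trans ?_
  rw [sum_add_distrib, ← mul_sum, ← mul_sum, ← mul_sum]
  refine add_le_add ?_ ?_
  · rw [← leaf_sum]
    have h2 : leaf (fun A U => ∑ κ : Fin k → Fin (m / k),
          (if A.card ≤ k ∧ 0 < adv (junta g (pk κ)) A then (1 : ℝ) else 0) * pm (bw m t) U) T U
        ≤ leaf (fun _ U => ((k.choose (c + 1) : ℝ) * ((m / k : ℕ) : ℝ) ^ (k - (c + 1))) *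
          pm (bw m t) U) T U := by
      refine leaf_mono (fun A U => ?_) _ _
      rw [← sum_mul]
      exact mul_le_mul_of_nonneg_right (null_count hg A) (pm_nonneg bw_nonneg U)
    rw [leaf_mul, leaf_pm, hpm, mul_one] at h2
    exact mul_le_mul_of_nonneg_left h2 (Real.exp_pos 1).le
  · refine mul_le_mul_of_nonneg_left (mul_le_mul_of_nonneg_left ?_ (by norm_num)) (by positivity)
    rw [sum_comm]
    have h2 : ∀ j : Fin N, ∑ κ : Fin k → Fin (m / k),
        leaf (fun _ U => pm (bw m t) U * bt (bw m t) (ll (junta g (pk κ))) (U j) ^ 2) T U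
        ≤ (2 ^ t) ^ 2 * 2 ^ k *
          (2 * ((m / k : ℕ) : ℝ) ^ k * (1 / (ρ * (m / k : ℕ))) ^ (c + 1)) * 2 ^ (2 * ρ * b) := by
      intro j
      rw [← leaf_sum]
      refine (leaf_mono (fun _ U => sum_bt_ll_le hg h0 h1 hM U j) _ _).trans ?_
      rw [leaf_mul]
      refine mul_le_mul_of_nonneg_left ?_ (by positivity)
      have ht0 : 0 ≤ 2 / (1 + ρ) - 1 := by
        rw [sub_nonneg, le_div_iff₀ (by linarith)]
        linarith
      have ht1 : 2 / (1 + ρ) - 1 ≤ 1 := by
        have : 2 / (1 + ρ) ≤ 2 := by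
          rw [div_le_iff₀ (by linarith)]
          linarith
        linarith
      refine (leaf_rpow_le bw_nonneg ht0 ht1 j T U).trans ?_
      rw [hrs, ms_bw_univ, Real.one_rpow, mul_one, mul_one]
      refine Real.rpow_le_rpow_of_exponent_le (by norm_num) ?_
      have h3 : 1 - (2 / (1 + ρ) - 1) ≤ 2 * ρ := by
        have : 2 - 2 * ρ ≤ 2 / (1 + ρ) := by
          rw [le_div_iff₀ (by linarith)]
          nlinarith
        linarith
      have h4 : ((T.load j : ℕ) : ℝ) ≤ b := by exact_mod_cast hb j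
      exact mul_le_mul h3 h4 (Nat.cast_nonneg _) (by positivity)
    refine (sum_le_sum fun j _ => h2 j).trans (le_of_eq ?_)
    rw [sum_const, card_univ, Fintype.card_fin, nsmul_eq_mul]

theorem exp_two_le : Real.exp 2 ≤ 8 := by
  have h1 := Real.exp_one_lt_d9
  have h2 : Real.exp 2 = Real.exp 1 ^ 2 := by
    rw [← Real.exp_nat_mul]; norm_num
  rw [h2]
  have h3 := Real.exp_pos 1
  nlinarith

/-- The lower bound for learners with batches. -/
theorem batch_core {N b c : ℕ} {g : (Fin k → Bool) → Bool} (hg : Balanced c g)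
    {R : Type} [Fintype R] [Nonempty R] (π : R → Prot N (Fin t → Ex m) (Finset (Fin m)))
    (hb : ∀ r j, (π r).load j ≤ b) (hc : c + 1 ≤ 2 * b) (hck : c + 1 ≤ k)
    (hbm : 4 * b ≤ (c + 1) * (m / k)) :
    ∃ s : Fin k → Fin m, Function.Injective s ∧ Balanced c (junta g s) ∧
      batchProbR (fun r => (π r).run) (junta g s)
        (fun A => A.card ≤ k ∧ 0 < adv (junta g s) A)
      ≤ 3 * (k.choose (c + 1) : ℝ) / ((m / k : ℕ) : ℝ) ^ (c + 1)
        + 2 ^ (k + 2 * t + 6) * N * (4 * b / ((c + 1) * (m / k : ℕ))) ^ (c + 1) := by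
  classical
  have hbR : (0 : ℝ) < b := by exact_mod_cast (by omega : 0 < b)
  have hM1 : 1 ≤ m / k := by
    rcases Nat.eq_zero_or_pos (m / k) with h | h
    · rw [h] at hbm; omega
    · exact h
  obtain ⟨M, hMdef⟩ : ∃ M : ℝ, M = ((m / k : ℕ) : ℝ) := ⟨_, rfl⟩
  have hMp : 0 < M := by rw [hMdef]; exact_mod_cast hM1
  obtain ⟨ρ, hρ⟩ : ∃ ρ : ℝ, ρ = (c + 1 : ℕ) / (2 * b) := ⟨_, rfl⟩
  have h0 : 0 < ρ := by rw [hρ]; positivity
  have h1 : ρ ≤ 1 := by
    rw [hρ, div_le_one (by positivity)]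
    exact_mod_cast hc
  have hM : 2 ≤ ρ * (m / k : ℕ) := by
    rw [hρ, div_mul_eq_mul_div, le_div_iff₀ (by positivity)]
    have : ((4 * b : ℕ) : ℝ) ≤ (((c + 1) * (m / k) : ℕ) : ℝ) := by exact_mod_cast hbm
    push_cast at this ⊢
    linarith
  have hval : (1 / (ρ * M)) ^ (c + 1) * (2 : ℝ) ^ (2 * ρ * b)
      = (4 * b / ((c + 1) * M)) ^ (c + 1) := by
    have h2 : 2 * ρ * b = ((c + 1 : ℕ) : ℝ) := by rw [hρ]; field_simp
    rw [h2, Real.rpow_natCast, ← mul_pow, hρ]
    congr 1
    push_cast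
    field_simp
    norm_num
  set B : ℝ := M ^ k * (3 * (k.choose (c + 1) : ℝ) / M ^ (c + 1)
        + 2 ^ (k + 2 * t + 6) * N * (4 * b / ((c + 1) * M)) ^ (c + 1)) with hB
  have hsum : ∀ r, ∑ κ : Fin k → Fin (m / k), batchProb (π r).run (junta g (pk κ))
        (fun A => A.card ≤ k ∧ 0 < adv (junta g (pk κ)) A) ≤ B := by
    intro r
    have h2 := sum_batchProb_le hg (π r) h0 h1 hM (hb r)
    rw [← hMdef] at h2
    refine h2.trans ?_
    rw [hB, mul_add]
    refine add_le_add ?_ ?_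
    · have h3 : Real.exp 1 ≤ 3 := by
        have := Real.exp_one_lt_d9
        linarith
      have h4 : M ^ k = M ^ (k - (c + 1)) * M ^ (c + 1) := by
        rw [← pow_add]; congr 1; omega
      have h5 : M ^ k * (3 * (k.choose (c + 1) : ℝ) / M ^ (c + 1))
          = 3 * ((k.choose (c + 1) : ℝ) * M ^ (k - (c + 1))) := by
        rw [h4]; field_simp
      rw [h5]
      exact mul_le_mul_of_nonneg_right h3 (by positivity)
    · have h5 : (N : ℝ) * ((2 ^ t) ^ 2 * 2 ^ k * (2 * M ^ k * (1 / (ρ * M)) ^ (c + 1))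
            * (2 : ℝ) ^ (2 * ρ * b))
          = (2 ^ t) ^ 2 * 2 ^ k * 2 * N * M ^ k * (4 * b / ((c + 1) * M)) ^ (c + 1) := by
        rw [← hval]; ring
      rw [h5]
      have h6 : 0 ≤ (2 ^ t) ^ 2 * 2 ^ k * N * M ^ k *
          (4 * b / ((c + 1) * M)) ^ (c + 1) := by positivity
      calc Real.exp 2 * (3 * ((2 ^ t) ^ 2 * 2 ^ k * 2 * N * M ^ k *
            (4 * b / ((c + 1) * M)) ^ (c + 1)))
          = Real.exp 2 * 6 * ((2 ^ t) ^ 2 * 2 ^ k * N * M ^ k *
            (4 * b / ((c + 1) * M)) ^ (c + 1)) := by ring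
        _ ≤ 64 * ((2 ^ t) ^ 2 * 2 ^ k * N * M ^ k *
            (4 * b / ((c + 1) * M)) ^ (c + 1)) := by
          refine mul_le_mul_of_nonneg_right ?_ h6
          linarith [exp_two_le]
        _ = _ := by
          have e : (2 : ℝ) ^ (k + 2 * t + 6) = 2 ^ k * (2 ^ t) ^ 2 * 2 ^ 6 := by
            rw [pow_add, pow_add, pow_mul']
          rw [e]
          ring
  have hsumR : ∑ κ : Fin k → Fin (m / k), batchProbR (fun r => (π r).run) (junta g (pk κ))
        (fun A => A.card ≤ k ∧ 0 < adv (junta g (pk κ)) A) ≤ B := by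
    unfold batchProbR
    rw [← sum_div, sum_comm, div_le_iff₀ (by exact_mod_cast Fintype.card_pos)]
    refine (sum_le_sum fun r _ => hsum r).trans (le_of_eq ?_)
    rw [sum_const, card_univ, nsmul_eq_mul]
    ring
  have hne : Nonempty (Fin (m / k)) := ⟨⟨0, hM1⟩⟩
  obtain ⟨κ, _, hκ⟩ : ∃ κ ∈ (univ : Finset (Fin k → Fin (m / k))),
      batchProbR (fun r => (π r).run) (junta g (pk κ))
        (fun A => A.card ≤ k ∧ 0 < adv (junta g (pk κ)) A) ≤ B / M ^ k := by
    refine exists_le_of_sum_le univ_nonempty (hsumR.trans (le_of_eq ?_))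
    rw [sum_const, card_univ, Fintype.card_fun, Fintype.card_fin, Fintype.card_fin, nsmul_eq_mul]
    push_cast
    rw [← hMdef]
    field_simp
  refine ⟨pk κ, pk_inj κ, tgt_bal hg (pk_inj κ), ?_⟩
  rw [← hMdef]
  refine hκ.trans (le_of_eq ?_)
  rw [hB]
  field_simp

end Pool.Agent.Q126.BL
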